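import Pool.Agent.H17.Hyper.Transform

/-!
# Products of blocks and their nonnegative combinations
-/

set_option autoImplicit false

namespace Pool.Agent.H17.Hyper

open Finset

theorem Good.congr {N d : ℕ} {A : ℝ} {F G : ℕ → ℝ} (h : Good N d A F) (hFG : ∀ t, F t = G t) :
    Good N d A G := by
  have : F = G := funext hFG
  rwa [← this]

theorem Good.scale {N d : ℕ} {A : ℝ} {F : ℕ → ℝ} (h : Good N d A F) {c : ℝ} (hc : 0 < c) :
    Good N d A (fun t => c * F t) := by
  obtain ⟨E, hE, hN, hpos, hdvd, hsec, hF⟩ := h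
  have hE0 : E ≠ 0 := by
    rintro rfl
    simp at hpos
  refine ⟨Polynomial.C c * E, ⟨hE.1.C_mul c, fun r hr => hE.2 r ?_⟩, ?_, ?_, ?_, ?_, ?_⟩
  · rwa [Polynomial.roots_C_mul _ hc.ne'] at hr
  · rw [Polynomial.natDegree_C_mul hc.ne', hN]
  · rw [Polynomial.coeff_C_mul]; positivity
  · exact Dvd.dvd.mul_left hdvd _
  · rw [Polynomial.coeff_C_mul, Polynomial.coeff_C_mul]
    linear_combination c * hsec
  · intro t
    simp only
    rw [hF, Finset.mul_sum]
    refine Finset.sum_congr rfl fun j _ => ?_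
    rw [Polynomial.coeff_C_mul]
    ring

theorem good_one : Good 0 0 0 (fun _ => 1) := by
  refine ⟨1, RR.one, Polynomial.natDegree_one, by simp, by simp, by simp, fun t => by simp⟩

theorem Good.asc {N d : ℕ} {A : ℝ} {F : ℕ → ℝ} (h : Good N d A F) (b : ℕ) :
    Good (N + b) (max d (b - 1)) (A + (b : ℝ) * (b - 1) / 2)
      (fun t => (t.ascFactorial b : ℝ) * F t) := by
  induction b with
  | zero =>
    have : max d (0 - 1) = d := by simp
    rw [this]
    simpa using h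
  | succ b ih =>
    have h1 := ih.step b (by omega)
    have e1 : max (max d (b - 1)) b = max d (b + 1 - 1) := by omega
    rw [e1] at h1
    have e2 : A + (b : ℝ) * (b - 1) / 2 + b = A + ((b + 1 : ℕ) : ℝ) * ((b + 1 : ℕ) - 1) / 2 := by
      push_cast; ring
    rw [e2] at h1
    refine h1.congr fun t => ?_
    rw [Nat.ascFactorial_succ]
    push_cast
    ring

theorem multichoose_mul_factorial (t b : ℕ) : t.ascFactorial b = b.factorial * t.multichoose b := by
  rcases t with _ | t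
  · rcases b with _ | b
    · simp
    · rw [Nat.zero_ascFactorial, Nat.multichoose_zero_succ, mul_zero]
  · rw [Nat.multichoose_eq, Nat.ascFactorial_eq_factorial_mul_choose]
    congr 2
    omega

theorem Good.block {N d : ℕ} {A : ℝ} {F : ℕ → ℝ} (h : Good N d A F) (b : ℕ) :
    Good (N + b) (max d (b - 1)) (A + (b : ℝ) * (b - 1) / 2)
      (fun t => (t.multichoose b : ℝ) * F t) := by
  have hb : (0 : ℝ) < b.factorial := by exact_mod_cast b.factorial_pos
  refine ((h.asc b).scale (inv_pos.mpr hb)).congr fun t => ?_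
  rw [multichoose_mul_factorial]
  push_cast
  field_simp

theorem good_first (N : ℕ) : Good N N ((N : ℝ) * (N + 1) / 2)
    (fun t => ((t + 1).ascFactorial N : ℝ)) := by
  induction N with
  | zero => simpa using good_one
  | succ N ih =>
    have h1 := ih.step (N + 1) le_rfl
    rw [max_eq_right (Nat.le_succ N)] at h1
    have e2 : (N : ℝ) * (N + 1) / 2 + ((N + 1 : ℕ) : ℝ)
        = ((N + 1 : ℕ) : ℝ) * ((N + 1 : ℕ) + 1) / 2 := by
      push_cast; ring
    rw [e2] at h1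
    refine h1.congr fun t => ?_
    rw [Nat.ascFactorial_succ]
    push_cast
    ring

theorem good_first' (N : ℕ) : Good N N ((N : ℝ) * (N + 1) / 2)
    (fun t => ((t + 1).multichoose N : ℝ)) := by
  have hb : (0 : ℝ) < N.factorial := by exact_mod_cast N.factorial_pos
  refine ((good_first N).scale (inv_pos.mpr hb)).congr fun t => ?_
  rw [multichoose_mul_factorial]
  push_cast
  field_simp

/-- Products of `r` blocks of total size `n`. -/
def TT (n r : ℕ) (F : ℕ → ℝ) : Prop :=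
  ∃ (d : ℕ) (A : ℝ), 1 ≤ n ∧ 1 ≤ r ∧ Good (n - 1) d A F ∧ (n : ℝ) ^ 2 ≤ r * (2 * A + n)

theorem TT_first {n : ℕ} (hn : 1 ≤ n) : TT n 1 (fun t => ((t + 1).multichoose (n - 1) : ℝ)) := by
  refine ⟨n - 1, _, hn, le_rfl, good_first' (n - 1), ?_⟩
  obtain ⟨m, rfl⟩ : ∃ m, n = m + 1 := ⟨n - 1, by omega⟩
  rw [Nat.add_sub_cancel]
  push_cast
  apply le_of_eq
  ring

theorem TT.block {m r : ℕ} {F : ℕ → ℝ} (h : TT m r F) (b : ℕ) :
    TT (m + b) (r + 1) (fun t => (t.multichoose b : ℝ) * F t) := by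
  obtain ⟨d, A, hm, hr, hg, hA⟩ := h
  refine ⟨max d (b - 1), A + (b : ℝ) * (b - 1) / 2, by omega, by omega, ?_, ?_⟩
  · have := hg.block b
    rwa [show m - 1 + b = m + b - 1 by omega] at this
  · have hr' : (1 : ℝ) ≤ r := by exact_mod_cast hr
    have hm' : (1 : ℝ) ≤ m := by exact_mod_cast hm
    set S := 2 * A + m with hS
    have h1 : 2 * (m : ℝ) * b ≤ S + r * b ^ 2 := by
      have h2 : 0 ≤ ((m : ℝ) - r * b) ^ 2 := sq_nonneg _
      have h3 : (r : ℝ) * (2 * m * b) ≤ r * (S + r * b ^ 2) := by nlinarith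
      exact le_of_mul_le_mul_left h3 (by linarith)
    push_cast
    have h4 : 2 * (A + (b : ℝ) * (b - 1) / 2) + (m + b) = S + b ^ 2 := by rw [hS]; ring
    rw [h4]
    nlinarith

/-- Nonnegative combinations of products of at most `R` blocks of total size `n`. -/
inductive CC (n R : ℕ) : (ℕ → ℝ) → Prop
  | zero : CC n R (fun _ => 0)
  | base (F : ℕ → ℝ) (r : ℕ) (h : TT n r F) (hr : r ≤ R) : CC n R F
  | add (F G : ℕ → ℝ) (hF : CC n R F) (hG : CC n R G) : CC n R (fun t => F t + G t)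

theorem CC.congr {n R : ℕ} {F G : ℕ → ℝ} (h : CC n R F) (hFG : ∀ t, F t = G t) : CC n R G := by
  have : F = G := funext hFG
  rwa [← this]

theorem CC.mono {n R R' : ℕ} (hR : R ≤ R') {F : ℕ → ℝ} (h : CC n R F) : CC n R' F := by
  induction h with
  | zero => exact CC.zero
  | base F r h hr => exact CC.base F r h (hr.trans hR)
  | add F G _ _ h1 h2 => exact CC.add F G h1 h2

theorem CC.block {m R : ℕ} {F : ℕ → ℝ} (h : CC m R F) (b : ℕ) :
    CC (m + b) (R + 1) (fun t => (t.multichoose b : ℝ) * F t) := by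
  induction h with
  | zero => exact CC.zero.congr fun t => by simp
  | base F r h hr => exact CC.base _ (r + 1) (h.block b) (by omega)
  | add F G _ _ h1 h2 => exact (CC.add _ _ h1 h2).congr fun t => by ring

theorem CC.sum {n R : ℕ} {ι : Type} (s : Finset ι) (F : ι → ℕ → ℝ) (h : ∀ i ∈ s, CC n R (F i)) :
    CC n R (fun t => ∑ i ∈ s, F i t) := by
  classical
  induction s using Finset.induction_on with
  | empty => exact CC.zero.congr fun t => by simp
  | insert a s ha ih =>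
    refine (CC.add _ _ (h a (Finset.mem_insert_self a s))
      (ih fun i hi => h i (Finset.mem_insert_of_mem hi))).congr fun t => ?_
    rw [Finset.sum_insert ha]

theorem hs_add (n : ℕ) (F G : ℕ → ℝ) (i : ℕ) :
    hs n (fun t => F t + G t) i = hs n F i + hs n G i := by
  unfold hs
  rw [← Finset.sum_add_distrib]
  exact Finset.sum_congr rfl fun j _ => by ring

theorem hs_zero (n : ℕ) (i : ℕ) : hs n (fun _ => 0) i = 0 := by
  unfold hs
  simp

/-- The inequalities beyond `n ^ 2 (R - 1) / (2 R (n - 1))`. -/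
theorem CC.tail {n R : ℕ} (hn : 2 ≤ n) (hR : 1 ≤ R) {F : ℕ → ℝ} (h : CC n R F) (i : ℕ) :
    0 ≤ hs n F i ∧
    ((n : ℝ) ^ 2 * (R - 1) ≤ 2 * R * (n - 1) * i →
      (2 * R * ((n : ℝ) - 1) ^ 2 - (n : ℝ) ^ 2 * (R - 1)) * hs n F (i + 1)
        ≤ 2 * R * (n - 1) * ((n : ℝ) - 1 - i) * hs n F i ∧ hs n F (i + 1) ≤ hs n F i) := by
  induction h with
  | zero =>
    rw [hs_zero, hs_zero]
    simp
  | add F G _ _ h1 h2 =>
    rw [hs_add, hs_add]
    refine ⟨add_nonneg h1.1 h2.1, fun hi => ⟨?_, ?_⟩⟩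
    · have h3 := (h1.2 hi).1
      have h4 := (h2.2 hi).1
      linarith
    · linarith [(h1.2 hi).2, (h2.2 hi).2]
  | base F r hT hr =>
    obtain ⟨d, A, -, hr1, hg, hA⟩ := hT
    obtain ⟨c, p, hc, hp0, hp1, hsum, hcoef⟩ := hg.transform
    have e : n - 1 + 1 = n := by omega
    rw [e] at hcoef
    rw [hcoef, hcoef]
    refine ⟨mul_nonneg hc.le (bern_nonneg p hp0 hp1 _ _), fun hi => ?_⟩
    have hn1 : ((n - 1 : ℕ) : ℝ) = (n : ℝ) - 1 := by
      rw [Nat.cast_sub (by omega)]; simp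
    rw [hn1] at hsum
    have hn' : (2 : ℝ) ≤ n := by exact_mod_cast hn
    have hR' : (1 : ℝ) ≤ R := by exact_mod_cast hR
    have hr1' : (1 : ℝ) ≤ r := by exact_mod_cast hr1
    have hrR : (r : ℝ) ≤ R := by exact_mod_cast hr
    -- (n-1) μ ≤ n^2 (R-1) / (2R)
    have hmu : 2 * (R : ℝ) * (((n : ℝ) - 1) * ∑ j, p j) ≤ (n : ℝ) ^ 2 * (R - 1) := by
      rw [hsum]
      have h1 : (n : ℝ) ^ 2 ≤ R * (2 * A + n) := by
        refine hA.trans (mul_le_mul_of_nonneg_right hrR ?_)
        by_contra hneg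
        push Not at hneg
        have : (r : ℝ) * (2 * A + n) ≤ 0 := by nlinarith
        nlinarith
      nlinarith
    have hmu2 : ∑ j, p j ≤ (i : ℝ) := by
      have h2 : 2 * (R : ℝ) * (n - 1) * ∑ j, p j ≤ 2 * R * (n - 1) * i := by
        refine le_trans (le_of_eq (by ring)) (hmu.trans hi)
      have h3 : (0 : ℝ) < 2 * (R : ℝ) * (n - 1) := by nlinarith
      exact le_of_mul_le_mul_left h2 h3
    obtain ⟨h4, h5⟩ := bern_tail p hp0 hp1 (n - 1) univ (by simp) i hmu2
    rw [hn1] at h4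
    have hnn := bern_nonneg p hp0 hp1 univ (i + 1)
    refine ⟨?_, mul_le_mul_of_nonneg_left h5 hc.le⟩
    have h6 : (2 * R * ((n : ℝ) - 1) ^ 2 - (n : ℝ) ^ 2 * (R - 1)) * (bern p univ).coeff (i + 1)
        ≤ 2 * R * (n - 1) * ((n : ℝ) - 1 - i) * (bern p univ).coeff i := by
      have h7 : 2 * (R : ℝ) * (n - 1) * (((n : ℝ) - 1 - ∑ j, p j) * (bern p univ).coeff (i + 1))
          ≤ 2 * (R : ℝ) * (n - 1) * (((n : ℝ) - 1 - i) * (bern p univ).coeff i) :=
        mul_le_mul_of_nonneg_left h4 (by nlinarith)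
      have h8 : (2 * R * ((n : ℝ) - 1) ^ 2 - (n : ℝ) ^ 2 * (R - 1))
          ≤ 2 * (R : ℝ) * (n - 1) * ((n : ℝ) - 1 - ∑ j, p j) := by nlinarith
      calc (2 * R * ((n : ℝ) - 1) ^ 2 - (n : ℝ) ^ 2 * (R - 1)) * (bern p univ).coeff (i + 1)
          ≤ (2 * (R : ℝ) * (n - 1) * ((n : ℝ) - 1 - ∑ j, p j)) * (bern p univ).coeff (i + 1) :=
            mul_le_mul_of_nonneg_right h8 hnn
        _ = 2 * (R : ℝ) * (n - 1) * (((n : ℝ) - 1 - ∑ j, p j) * (bern p univ).coeff (i + 1)) := by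
            ring
        _ ≤ _ := h7
        _ = _ := by ring
    calc (2 * R * ((n : ℝ) - 1) ^ 2 - (n : ℝ) ^ 2 * (R - 1)) * (c * (bern p univ).coeff (i + 1))
        = c * ((2 * R * ((n : ℝ) - 1) ^ 2 - (n : ℝ) ^ 2 * (R - 1)) * (bern p univ).coeff (i + 1)) := by
          ring
      _ ≤ c * (2 * R * (n - 1) * ((n : ℝ) - 1 - i) * (bern p univ).coeff i) :=
          mul_le_mul_of_nonneg_left h6 hc.le
      _ = _ := by ring

end Pool.Agent.H17.Hyper
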