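import Mathlib

/-!
# Coefficients of a product of factors `(1 - p) + p X`

If `k` is at least the sum `μ` of the `p j`, then `(N - μ) a_{k+1} ≤ (N - k) a_k`.
-/

set_option autoImplicit false

namespace Pool.Agent.H17.Hyper

open Polynomial Finset

variable {ι : Type} [DecidableEq ι]

/-- The product of the factors `(1 - p j) + p j X` over `j ∈ s`. -/
noncomputable def bern (p : ι → ℝ) (s : Finset ι) : ℝ[X] :=
  ∏ j ∈ s, (C (1 - p j) + C (p j) * X)

theorem bern_erase (p : ι → ℝ) {s : Finset ι} {j : ι} (hj : j ∈ s) :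
    bern p s = (C (1 - p j) + C (p j) * X) * bern p (s.erase j) := by
  unfold bern
  exact (Finset.mul_prod_erase s (fun j => (C (1 - p j) + C (p j) * X : ℝ[X])) hj).symm

theorem bern_coeff_succ (p : ι → ℝ) {s : Finset ι} {j : ι} (hj : j ∈ s) (k : ℕ) :
    (bern p s).coeff (k + 1) = (1 - p j) * (bern p (s.erase j)).coeff (k + 1)
      + p j * (bern p (s.erase j)).coeff k := by
  rw [bern_erase p hj, add_mul, coeff_add, coeff_C_mul, mul_assoc, coeff_C_mul, coeff_X_mul]

theorem bern_coeff_zero (p : ι → ℝ) {s : Finset ι} {j : ι} (hj : j ∈ s) :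
    (bern p s).coeff 0 = (1 - p j) * (bern p (s.erase j)).coeff 0 := by
  rw [bern_erase p hj, mul_coeff_zero]
  simp

theorem bern_nonneg (p : ι → ℝ) (h0 : ∀ j, 0 ≤ p j) (h1 : ∀ j, p j ≤ 1) (s : Finset ι) :
    ∀ k, 0 ≤ (bern p s).coeff k := by
  induction s using Finset.induction_on with
  | empty =>
    intro k
    simp only [bern, Finset.prod_empty, coeff_one]
    split_ifs <;> norm_num
  | insert j s hj ih =>
    intro k
    have e : (insert j s).erase j = s := Finset.erase_insert hj
    rcases k with _ | k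
    · rw [bern_coeff_zero p (Finset.mem_insert_self j s), e]
      exact mul_nonneg (by linarith [h1 j]) (ih 0)
    · rw [bern_coeff_succ p (Finset.mem_insert_self j s), e]
      exact add_nonneg (mul_nonneg (by linarith [h1 j]) (ih _)) (mul_nonneg (h0 j) (ih _))

theorem bern_derivative (p : ι → ℝ) (s : Finset ι) :
    derivative (bern p s) = ∑ j ∈ s, C (p j) * bern p (s.erase j) := by
  unfold bern
  rw [derivative_prod_finset]
  refine Finset.sum_congr rfl fun j _ => ?_
  have e : derivative (C (1 - p j) + C (p j) * X : ℝ[X]) = C (p j) := by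
    rw [derivative_add, derivative_C, derivative_C_mul, derivative_X, zero_add, mul_one]
  rw [e, mul_comm]

theorem bern_sum1 (p : ι → ℝ) (s : Finset ι) (k : ℕ) :
    ∑ j ∈ s, p j * (bern p (s.erase j)).coeff k = (k + 1 : ℝ) * (bern p s).coeff (k + 1) := by
  have h := congrArg (fun q => coeff q k) (bern_derivative p s)
  simp only [coeff_derivative, finsetSum_coeff, coeff_C_mul] at h
  rw [← h]
  ring

theorem bern_sum2 (p : ι → ℝ) (s : Finset ι) (k : ℕ) :
    ∑ j ∈ s, (1 - p j) * (bern p (s.erase j)).coeff k = ((s.card : ℝ) - k) * (bern p s).coeff k := by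
  rcases k with _ | k
  · rw [Finset.sum_congr rfl (fun j hj => (bern_coeff_zero p hj).symm)]
    simp
  · have h : ∑ j ∈ s, (bern p s).coeff (k + 1) = ∑ j ∈ s,
        ((1 - p j) * (bern p (s.erase j)).coeff (k + 1) + p j * (bern p (s.erase j)).coeff k) :=
      Finset.sum_congr rfl fun j hj => bern_coeff_succ p hj k
    rw [Finset.sum_add_distrib, bern_sum1, Finset.sum_const, nsmul_eq_mul] at h
    push_cast
    linarith

omit [DecidableEq ι] in
theorem bern_natDegree_le (p : ι → ℝ) (s : Finset ι) : (bern p s).natDegree ≤ s.card := by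
  unfold bern
  refine (natDegree_prod_le _ _).trans ?_
  refine (Finset.sum_le_card_nsmul _ _ 1 ?_).trans (by simp)
  intro j _
  compute_degree

/-- The main inequalities, beyond the mean. -/
theorem bern_tail (p : ι → ℝ) (h0 : ∀ j, 0 ≤ p j) (h1 : ∀ j, p j ≤ 1) :
    ∀ (N : ℕ) (s : Finset ι), s.card = N → ∀ k : ℕ, ∑ j ∈ s, p j ≤ k →
      ((N : ℝ) - ∑ j ∈ s, p j) * (bern p s).coeff (k + 1) ≤ ((N : ℝ) - k) * (bern p s).coeff k ∧
      (bern p s).coeff (k + 1) ≤ (bern p s).coeff k := by
  intro N
  induction N with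
  | zero =>
    intro s hs k _
    rw [Finset.card_eq_zero] at hs
    subst hs
    have e : (bern p (∅ : Finset ι)) = 1 := by simp [bern]
    rw [e]
    constructor
    · simp only [Finset.sum_empty, Nat.cast_zero, sub_zero, zero_mul, zero_sub]
      rcases k with _ | k
      · simp
      · simp [coeff_one]
    · rw [coeff_one, coeff_one]
      split_ifs <;> norm_num at *
  | succ N ih =>
    intro s hs k hk
    have key : ((N + 1 : ℕ) - ∑ j ∈ s, p j : ℝ) * (bern p s).coeff (k + 1)
        ≤ ((N + 1 : ℕ) - (k : ℝ)) * (bern p s).coeff k := by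
      have e1 : ((N + 1 : ℕ) - ∑ j ∈ s, p j : ℝ) = ∑ j ∈ s, (1 - p j) := by
        rw [Finset.sum_sub_distrib, Finset.sum_const, hs, nsmul_eq_mul, mul_one]
      have e2 := bern_sum2 p s k
      rw [hs] at e2
      rw [e1, ← e2, Finset.sum_mul]
      refine Finset.sum_le_sum fun j hj => ?_
      refine mul_le_mul_of_nonneg_left ?_ (by linarith [h1 j])
      rw [bern_coeff_succ p hj]
      have hc : (s.erase j).card = N := by
        rw [Finset.card_erase_of_mem hj, hs]; rfl
      have hs' : ∑ l ∈ s.erase j, p l ≤ k := by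
        have := Finset.add_sum_erase s p hj
        have h3 := h0 j
        linarith
      have h4 := (ih (s.erase j) hc k hs').2
      have h5 := h1 j
      nlinarith
    refine ⟨key, ?_⟩
    have hsum : ∑ j ∈ s, p j ≤ (N + 1 : ℕ) := by
      calc ∑ j ∈ s, p j ≤ ∑ j ∈ s, (1 : ℝ) := Finset.sum_le_sum fun j _ => h1 j
        _ = (N + 1 : ℕ) := by rw [Finset.sum_const, hs, nsmul_eq_mul, mul_one]
    have hn := bern_nonneg p h0 h1 s
    rcases hsum.lt_or_eq with h | h
    · have h6 : ((N + 1 : ℕ) - (k : ℝ)) * (bern p s).coeff k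
          ≤ ((N + 1 : ℕ) - ∑ j ∈ s, p j : ℝ) * (bern p s).coeff k :=
        mul_le_mul_of_nonneg_right (by linarith) (hn k)
      exact le_of_mul_le_mul_left (key.trans h6) (by linarith)
    · have h7 : (bern p s).coeff (k + 1) = 0 := by
        apply coeff_eq_zero_of_natDegree_lt
        refine (bern_natDegree_le p s).trans_lt ?_
        rw [hs]
        have : ((N + 1 : ℕ) : ℝ) ≤ k := by rw [← h]; exact hk
        have := Nat.cast_le.mp this
        omega
      rw [h7]
      exact hn k

end Pool.Agent.H17.Hyper
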