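import Pool.Agent.H17.Hyper.Lattice

/-!
# Log-concavity of the h-transform of a product of linear factors, by elementary means
-/

set_option autoImplicit false

namespace Pool.Agent.H17.Hyper

open Finset

/-- The h-transform, extended by zero to negative indices. -/
noncomputable def hz (n : ℕ) (F : ℕ → ℝ) (i : ℤ) : ℝ := if 0 ≤ i then hs n F i.toNat else 0

theorem hz_nat (n : ℕ) (F : ℕ → ℝ) (i : ℕ) : hz n F i = hs n F i := by
  simp [hz]

theorem hz_neg {n : ℕ} {F : ℕ → ℝ} {i : ℤ} (hi : i < 0) : hz n F i = 0 := by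
  rw [hz, if_neg (by omega)]

theorem hs_step_zero (n : ℕ) (a : ℝ) (F : ℕ → ℝ) :
    hs (n + 1) (fun t => ((t : ℝ) + a) * F t) 0 = a * hs n F 0 := by
  simp [hs]

theorem hs_step_succ (n : ℕ) (a : ℝ) (F : ℕ → ℝ) (i : ℕ) :
    hs (n + 1) (fun t => ((t : ℝ) + a) * F t) (i + 1)
      = ((i : ℝ) + 1 + a) * hs n F (i + 1) + ((n : ℝ) + 1 - (i + 1) - a) * hs n F i := by
  have e1 : hs n F (i + 1) = ∑ j ∈ range (i + 1), (-1 : ℝ) ^ (j + 1) * (n.choose (j + 1) : ℝ)
      * F (i - j) + F (i + 1) := by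
    rw [hs, Finset.sum_range_succ']
    simp
  have e2 : hs (n + 1) (fun t => ((t : ℝ) + a) * F t) (i + 1) = ∑ j ∈ range (i + 1),
      (-1 : ℝ) ^ (j + 1) * ((n + 1).choose (j + 1) : ℝ) * ((((i - j : ℕ) : ℝ) + a) * F (i - j))
      + (((i : ℝ) + 1) + a) * F (i + 1) := by
    rw [hs, Finset.sum_range_succ']
    simp
  rw [e1, e2, hs, mul_add, Finset.mul_sum, Finset.mul_sum]
  have key : ∀ j ∈ range (i + 1), (-1 : ℝ) ^ (j + 1) * ((n + 1).choose (j + 1) : ℝ)
      * ((((i - j : ℕ) : ℝ) + a) * F (i - j))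
      = ((i : ℝ) + 1 + a) * ((-1 : ℝ) ^ (j + 1) * (n.choose (j + 1) : ℝ) * F (i - j))
        + ((n : ℝ) + 1 - (i + 1) - a) * ((-1 : ℝ) ^ j * (n.choose j : ℝ) * F (i - j)) := by
    intro j hj
    rw [Finset.mem_range] at hj
    have h1 : (((j : ℝ) + 1) * ((n + 1).choose (j + 1) : ℝ)) = ((n : ℝ) + 1) * (n.choose j : ℝ) := by
      have := Nat.add_one_mul_choose_eq n j
      have h2 : ((n : ℝ) + 1) * (n.choose j : ℝ) = ((n + 1).choose (j + 1) : ℝ) * ((j : ℝ) + 1) := by
        exact_mod_cast this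
      rw [h2]; ring
    have h3 : ((n + 1).choose (j + 1) : ℝ) = (n.choose j : ℝ) + (n.choose (j + 1) : ℝ) := by
      rw [Nat.choose_succ_succ]; push_cast; ring
    rw [Nat.cast_sub (by omega : j ≤ i)]
    rw [h3] at h1 ⊢
    rw [pow_succ]
    linear_combination ((-1 : ℝ) ^ j * F (i - j)) * h1
  rw [Finset.sum_congr rfl key, Finset.sum_add_distrib]
  ring

/-- The effect on the h-transform of multiplication by `t + a`. -/
noncomputable def stp (a D : ℝ) (x : ℤ → ℝ) (i : ℤ) : ℝ :=
  ((i : ℝ) + a) * x i + (D - i - a) * x (i - 1)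

theorem hz_step (n : ℕ) (a : ℝ) (F : ℕ → ℝ) :
    hz (n + 1) (fun t => ((t : ℝ) + a) * F t) = stp a ((n : ℝ) + 1) (hz n F) := by
  funext i
  rcases lt_trichotomy i 0 with h | h | h
  · rw [hz_neg h, stp, hz_neg h, hz_neg (by omega)]
    ring
  · subst h
    rw [stp, hz_neg (by omega : (0 : ℤ) - 1 < 0)]
    have h0 : (0 : ℤ) = ((0 : ℕ) : ℤ) := rfl
    rw [h0, hz_nat, hz_nat, hs_step_zero]
    push_cast
    ring
  · obtain ⟨j, rfl⟩ : ∃ j : ℕ, i = ((j + 1 : ℕ) : ℤ) := ⟨(i - 1).toNat, by omega⟩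
    rw [stp, hz_nat, hz_nat, hs_step_succ]
    have h1 : (((j + 1 : ℕ) : ℤ) - 1) = (j : ℤ) := by push_cast; ring
    rw [h1, hz_nat]
    push_cast
    ring

/-- Positive and log-concave on an interval, zero outside. -/
structure SP (lo hi : ℤ) (x : ℤ → ℝ) : Prop where
  lo0 : 0 ≤ lo
  le : lo ≤ hi
  pos : ∀ i, lo ≤ i → i ≤ hi → 0 < x i
  zlo : ∀ i, i < lo → x i = 0
  zhi : ∀ i, hi < i → x i = 0
  lc : ∀ i, x (i - 1) * x (i + 1) ≤ x i ^ 2

theorem SP.nonneg {lo hi : ℤ} {x : ℤ → ℝ} (h : SP lo hi x) (i : ℤ) : 0 ≤ x i := by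
  rcases lt_or_ge i lo with h1 | h1
  · exact (h.zlo i h1).ge
  · rcases lt_or_ge hi i with h2 | h2
    · exact (h.zhi i h2).ge
    · exact (h.pos i h1 h2).le

theorem SP.lc3 {lo hi : ℤ} {x : ℤ → ℝ} (h : SP lo hi x) (i : ℤ) :
    x (i - 2) * x (i + 1) ≤ x (i - 1) * x i := by
  have h0 := h.nonneg
  by_cases h1 : lo ≤ i - 2
  · by_cases h2 : i + 1 ≤ hi
    · have a1 := h.lc (i - 1)
      have a2 := h.lc i
      rw [show i - 1 - 1 = i - 2 by ring, show i - 1 + 1 = i by ring] at a1
      have p1 := h.pos (i - 1) (by omega) (by omega)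
      have p2 := h.pos i (by omega) (by omega)
      have p3 := h.pos (i - 2) (by omega) (by omega)
      have p4 := h.pos (i + 1) (by omega) (by omega)
      have : (x (i - 2) * x i) * (x (i - 1) * x (i + 1)) ≤ x (i - 1) ^ 2 * x i ^ 2 := by
        apply mul_le_mul a1 a2 (by positivity) (by positivity)
      have h3 : (x (i - 1) * x i) * (x (i - 2) * x (i + 1)) ≤ (x (i - 1) * x i) * (x (i - 1) * x i) := by
        nlinarith
      exact le_of_mul_le_mul_left h3 (by positivity)
    · rw [h.zhi (i + 1) (by omega), mul_zero]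
      exact mul_nonneg (h0 _) (h0 _)
  · rw [h.zlo (i - 2) (by omega), zero_mul]
    exact mul_nonneg (h0 _) (h0 _)

theorem SP.step {lo hi : ℤ} {x : ℤ → ℝ} (h : SP lo hi x) {a D : ℝ} (ha : 0 ≤ a)
    (hD : 0 < D - ((hi : ℝ) + 1) - a) : ∃ lo', SP lo' (hi + 1) (stp a D x) := by
  have h0 := h.nonneg
  have hlo := h.lo0
  have hle := h.le
  -- coefficients
  have hb : ∀ i : ℤ, i ≤ hi + 1 → 0 < D - i - a := by
    intro i hi'
    have : (i : ℝ) ≤ (hi : ℝ) + 1 := by exact_mod_cast hi'
    linarith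
  have hz0 : ∀ i, i < lo → stp a D x i = 0 := by
    intro i hi'
    rw [stp, h.zlo i hi', h.zlo (i - 1) (by omega)]
    ring
  have hz1 : ∀ i, hi + 1 < i → stp a D x i = 0 := by
    intro i hi'
    rw [stp, h.zhi i (by omega), h.zhi (i - 1) (by omega)]
    ring
  have hpos : ∀ i, lo ≤ i → (i ≤ hi + 1) → (0 < (i : ℝ) + a) → 0 < stp a D x i := by
    intro i h1 h2 h3
    rw [stp]
    rcases eq_or_lt_of_le h2 with h4 | h4
    · have h5 := mul_pos (hb i h2) (h.pos (i - 1) (by omega) (by omega))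
      have h6 := mul_nonneg h3.le (h0 i)
      linarith
    · have h5 := mul_nonneg (hb i h2).le (h0 (i - 1))
      have h6 := mul_pos h3 (h.pos i h1 (by omega))
      linarith
  have hnn : ∀ i, 0 ≤ stp a D x i := by
    intro i
    rcases lt_or_ge i lo with h1 | h1
    · exact (hz0 i h1).ge
    · rcases lt_or_ge (hi + 1) i with h2 | h2
      · exact (hz1 i h2).ge
      · rw [stp]
        have h3 : (0 : ℝ) ≤ (i : ℝ) := by exact_mod_cast hlo.trans h1
        exact add_nonneg (mul_nonneg (by linarith) (h0 _)) (mul_nonneg (hb i h2).le (h0 _))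
  have hlc : ∀ i, stp a D x (i - 1) * stp a D x (i + 1) ≤ stp a D x i ^ 2 := by
    intro i
    rcases lt_or_ge (i - 1) lo with h1 | h1
    · rw [hz0 _ h1, zero_mul]; positivity
    · rcases lt_or_ge (hi + 1) (i + 1) with h2 | h2
      · rw [hz1 _ h2, mul_zero]; positivity
      · have h3 : (1 : ℝ) ≤ (i : ℝ) := by exact_mod_cast (by omega : (1 : ℤ) ≤ i)
        have hb' := hb (i + 1) h2
        push_cast at hb'
        simp only [stp]
        push_cast
        rw [show i - 1 - 1 = i - 2 by ring, show i + 1 - 1 = i by ring]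
        set α := (i : ℝ) + a with hα
        set β := D - i - a with hβ
        have hα1 : 1 ≤ α := by rw [hα]; linarith
        have hβ1 : 1 ≤ β := by rw [hβ]; linarith
        have e1 : (i : ℝ) - 1 + a = α - 1 := by rw [hα]; ring
        have e2 : D - ((i : ℝ) - 1) - a = β + 1 := by rw [hβ]; ring
        have e3 : (i : ℝ) + 1 + a = α + 1 := by rw [hα]; ring
        have e4 : D - ((i : ℝ) + 1) - a = β - 1 := by rw [hβ]; ring
        rw [e1, e2, e3, e4]
        have l1 := h.lc i
        have l2 := h.lc (i - 1)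
        rw [show i - 1 - 1 = i - 2 by ring, show i - 1 + 1 = i by ring] at l2
        have l3 := h.lc3 i
        have m1 : (α ^ 2 - 1) * (x (i - 1) * x (i + 1)) ≤ (α ^ 2 - 1) * x i ^ 2 :=
          mul_le_mul_of_nonneg_left l1 (by nlinarith)
        have m2 : (β ^ 2 - 1) * (x (i - 2) * x i) ≤ (β ^ 2 - 1) * x (i - 1) ^ 2 :=
          mul_le_mul_of_nonneg_left l2 (by nlinarith)
        have m3 : ((α + 1) * (β + 1)) * (x (i - 2) * x (i + 1))
            ≤ ((α + 1) * (β + 1)) * (x (i - 1) * x i) :=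
          mul_le_mul_of_nonneg_left l3 (by positivity)
        nlinarith [sq_nonneg (x i - x (i - 1))]
  by_cases hc : lo = 0 ∧ a = 0
  · refine ⟨1, by norm_num, by omega, fun i h1 h2 => hpos i (by omega) h2 ?_, fun i h1 => ?_,
      fun i h1 => hz1 i h1, hlc⟩
    · have : (1 : ℝ) ≤ (i : ℝ) := by exact_mod_cast h1
      linarith
    · rcases lt_or_ge i lo with h2 | h2
      · exact hz0 i h2
      · have h3 : i = 0 := by omega
        subst h3
        rw [stp, hc.2, h.zlo (0 - 1) (by omega)]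
        simp
  · refine ⟨lo, hlo, by omega, fun i h1 h2 => hpos i h1 h2 ?_, hz0, hz1, hlc⟩
    have h3 : (lo : ℝ) ≤ (i : ℝ) := by exact_mod_cast h1
    have h4 : (0 : ℝ) ≤ (lo : ℝ) := by exact_mod_cast hlo
    rcases eq_or_lt_of_le ha with h5 | h5
    · have h6 : lo ≠ 0 := fun h7 => hc ⟨h7, h5.symm⟩
      have h7 : (1 : ℝ) ≤ (lo : ℝ) := by exact_mod_cast (by omega : (1 : ℤ) ≤ lo)
      linarith
    · linarith

/-- If a smaller factor gives descent at `i`, so does a larger one. -/
theorem SP.transfer {lo hi : ℤ} {x : ℤ → ℝ} (h : SP lo hi x) {a a' D : ℝ} (ha : 0 ≤ a)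
    (haa : a ≤ a') (hD : 0 ≤ D - ((hi : ℝ) + 1) - a') {i : ℤ} (hi0 : 0 ≤ i)
    (hd : stp a D x (i + 1) ≤ stp a D x i) : stp a' D x (i + 1) ≤ stp a' D x i := by
  have h0 := h.nonneg
  have hi0' : (0 : ℝ) ≤ (i : ℝ) := by exact_mod_cast hi0
  rcases eq_or_lt_of_le haa with haa | haa
  · rwa [← haa]
  rcases lt_or_ge hi i with h1 | h1
  · -- beyond the support
    rw [stp, stp, h.zhi (i + 1) (by omega), show i + 1 - 1 = i by ring, h.zhi i h1]
    rcases eq_or_lt_of_le (show hi + 1 ≤ i by omega) with h2 | h2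
    · have h3 : (i : ℝ) = (hi : ℝ) + 1 := by rw [← h2]; push_cast; ring
      have := mul_nonneg (show 0 ≤ D - i - a' by rw [h3]; exact hD) (h0 (i - 1))
      linarith
    · rw [h.zhi (i - 1) (by omega)]
      simp
  have hie : (i : ℝ) ≤ (hi : ℝ) := by exact_mod_cast h1
  have hD1 : 0 ≤ D - ((i : ℝ) + 1) - a' := by linarith
  -- monotone likelihood ratio
  have hLR : stp a' D x (i + 1) * stp a D x i ≤ stp a' D x i * stp a D x (i + 1) := by
    simp only [stp]
    push_cast
    rw [show i + 1 - 1 = i by ring]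
    have l1 := h.lc i
    set u := x (i - 1) with hu
    set v := x i with hv
    set w := x (i + 1) with hw
    have hu0 : 0 ≤ u := h0 _
    have hv0 : 0 ≤ v := h0 _
    have hw0 : 0 ≤ w := h0 _
    have l2 : 2 * (u * w) ≤ v * (u + w) := by
      apply abs_le_of_sq_le_sq' _ (by positivity) |>.2
      have : v ^ 2 * (u + w) ^ 2 ≥ (u * w) * (4 * (u * w)) := by
        apply mul_le_mul l1 _ (by positivity) (by positivity)
        nlinarith [sq_nonneg (u - w)]
      nlinarith
    have hD2 : 1 ≤ D := by nlinarith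
    have l3 : (D - 1) * (u * w) ≤ (D - 1) * v ^ 2 := mul_le_mul_of_nonneg_left l1 (by linarith)
    have key : 0 ≤ (a' - a) * ((D - 1) * v ^ 2 + v * (u + w) - (D + 1) * (u * w)) := by
      apply mul_nonneg (by linarith)
      nlinarith
    nlinarith
  by_cases hp : 0 < stp a D x i
  · have h3 : stp a' D x (i + 1) * stp a D x i ≤ stp a' D x i * stp a D x i := by
      refine hLR.trans (mul_le_mul_of_nonneg_left hd ?_)
      rw [stp]
      exact add_nonneg (mul_nonneg (by linarith) (h0 _)) (mul_nonneg (by linarith) (h0 _))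
    exact le_of_mul_le_mul_right h3 hp
  · -- then everything vanishes
    have hA : 0 ≤ ((i : ℝ) + a) * x i := mul_nonneg (by linarith) (h0 _)
    have hB : 0 ≤ (D - i - a) * x (i - 1) := mul_nonneg (by linarith) (h0 _)
    have hC : 0 ≤ ((i + 1 : ℤ) + a) * x (i + 1) := mul_nonneg (by push_cast; linarith) (h0 _)
    have hE : 0 ≤ (D - (i + 1 : ℤ) - a) * x i := mul_nonneg (by push_cast; linarith) (h0 _)
    have e1 : stp a D x i = ((i : ℝ) + a) * x i + (D - i - a) * x (i - 1) := rfl
    have e2 : stp a D x (i + 1) = ((i + 1 : ℤ) + a) * x (i + 1) + (D - (i + 1 : ℤ) - a) * x i := by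
      rw [stp, show i + 1 - 1 = i by ring]
    have hF : (D - (i + 1 : ℤ) - a) * x i = 0 := by linarith
    have hG : x i = 0 := by
      rcases mul_eq_zero.mp hF with h5 | h5
      · exfalso
        push_cast at h5
        linarith
      · exact h5
    have hH : x (i + 1) = 0 := by
      have h6 : ((i + 1 : ℤ) + a) * x (i + 1) = 0 := by linarith
      rcases mul_eq_zero.mp h6 with h5 | h5
      · exfalso
        push_cast at h5
        linarith
      · exact h5
    rw [stp, stp, show i + 1 - 1 = i by ring, hG, hH]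
    have := mul_nonneg (show 0 ≤ D - i - a' by linarith) (h0 (i - 1))
    linarith

/-- A symmetric log-concave sequence descends beyond its centre. -/
theorem SP.desc_of_symm {lo hi s : ℤ} {x : ℤ → ℝ} (h : SP lo hi x) (hs : ∀ i, x (s - i) = x i)
    {i : ℤ} (hi' : s ≤ 2 * i + 1) : x (i + 1) ≤ x i := by
  by_contra hc
  push Not at hc
  have h0 := h.nonneg
  have hp : 0 < x (i + 1) := lt_of_le_of_lt (h0 i) hc
  have hsup : lo ≤ i + 1 ∧ i + 1 ≤ hi := by
    constructor
    · by_contra h1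
      rw [h.zlo _ (by omega)] at hp
      exact lt_irrefl _ hp
    · by_contra h1
      rw [h.zhi _ (by omega)] at hp
      exact lt_irrefl _ hp
  have chain : ∀ m : ℕ, x (i - m) ≤ x (i - m + 1) ∧ x (i - m) ≤ x i := by
    intro m
    induction m with
    | zero => simp; exact hc.le
    | succ m ih =>
      have e1 : i - ((m + 1 : ℕ) : ℤ) + 1 = i - m := by push_cast; ring
      have e2 : i - ((m + 1 : ℕ) : ℤ) = i - m - 1 := by push_cast; ring
      have step : x (i - m - 1) ≤ x (i - m) := by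
        rcases eq_or_lt_of_le (h0 (i - m)) with h1 | h1
        · -- zero: below the support
          have h2 : i - m < lo := by
            by_contra h3
            have := h.pos (i - m) (by omega) (by omega)
            rw [← h1] at this
            exact lt_irrefl _ this
          rw [h.zlo _ (by omega : i - m - 1 < lo)]
          exact h0 _
        · have h2 := h.lc (i - m)
          have h3 : x (i - m - 1) * x (i - m) ≤ x (i - m) * x (i - m) := by
            have := mul_le_mul_of_nonneg_left ih.1 (h0 (i - m - 1))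
            nlinarith
          exact le_of_mul_le_mul_right h3 h1
      rw [e1, e2]
      exact ⟨step, step.trans ih.2⟩
  have h1 := (chain (2 * i + 1 - s).toNat).2
  have e : i - ((2 * i + 1 - s).toNat : ℤ) = s - (i + 1) := by omega
  rw [e, hs] at h1
  linarith

end Pool.Agent.H17.Hyper
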