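import Pool.Agent.H17.Hyper.DescA

/-!
# Descent of the h-transform of a product of linear factors
-/

set_option autoImplicit false

namespace Pool.Agent.H17.Hyper

open Finset

/-- The product of the factors `t + b`. -/
noncomputable def PF (B : Multiset ℝ) (t : ℕ) : ℝ := (B.map (fun b => (t : ℝ) + b)).prod

theorem PF_cons (b : ℝ) (B : Multiset ℝ) : PF (b ::ₘ B) = fun t : ℕ => ((t : ℝ) + b) * PF B t := by
  funext t
  simp [PF]

theorem PF_zero : PF 0 = fun _ => 1 := by
  funext t
  simp [PF]

theorem hz_cons (n : ℕ) (b : ℝ) (B : Multiset ℝ) :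
    hz (n + 1) (PF (b ::ₘ B)) = stp b ((n : ℝ) + 1) (hz n (PF B)) := by
  rw [PF_cons, hz_step]

/-- The multiset `1, ..., M`. -/
noncomputable def bM (M : ℕ) : Multiset ℝ :=
  (Multiset.range M).map (fun a : ℕ => ((a + 1 : ℕ) : ℝ))

theorem bM_succ (M : ℕ) : bM (M + 1) = ((M + 1 : ℕ) : ℝ) ::ₘ bM M := by
  simp [bM, Multiset.range_succ]

theorem card_bM (M : ℕ) : Multiset.card (bM M) = M := by
  simp [bM]

theorem hz_bM (M : ℕ) (i : ℤ) :
    hz (M + 1) (PF (bM M)) i = if i = 0 then (M.factorial : ℝ) else 0 := by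
  induction M generalizing i with
  | zero =>
    have h0 : bM 0 = 0 := by simp [bM]
    rw [h0, PF_zero]
    rcases lt_trichotomy i 0 with h | h | h
    · rw [hz_neg h, if_neg (by omega)]
    · subst h
      have h0 : (0 : ℤ) = ((0 : ℕ) : ℤ) := rfl
      rw [h0, hz_nat]
      simp [hs]
    · obtain ⟨j, rfl⟩ : ∃ j : ℕ, i = ((j + 1 : ℕ) : ℤ) := ⟨(i - 1).toNat, by omega⟩
      rw [hz_nat, if_neg (by omega), hs, Finset.sum_range_succ', Finset.sum_range_succ']
      rw [Finset.sum_eq_zero]
      · simp
      · intro l _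
        rw [Nat.choose_eq_zero_of_lt (by omega : 0 + 1 < l + 1 + 1)]
        simp
  | succ M ih =>
    rw [bM_succ, hz_cons, stp, ih, ih]
    by_cases h : i = 0
    · subst h
      rw [if_pos rfl, if_neg (by omega), if_pos rfl, Nat.factorial_succ]
      push_cast
      ring
    · rw [if_neg h, if_neg h]
      by_cases h1 : i = 1
      · subst h1
        push_cast
        simp
      · rw [if_neg (by omega)]
        ring

theorem SP_base (M : ℕ) : SP 0 0 (hz (M + 1) (PF (bM M))) := by
  have hf : (0 : ℝ) < M.factorial := by exact_mod_cast M.factorial_pos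
  refine ⟨le_rfl, le_rfl, fun i h1 h2 => ?_, fun i h1 => ?_, fun i h1 => ?_, fun i => ?_⟩
  · rw [hz_bM, if_pos (by omega)]; exact hf
  · rw [hz_bM, if_neg (by omega)]
  · rw [hz_bM, if_neg (by omega)]
  · rw [hz_bM, hz_bM, hz_bM]
    by_cases h : i = 0
    · subst h
      rw [if_neg (by omega), zero_mul]
      exact sq_nonneg _
    · rw [if_neg h]
      by_cases h1 : i = 1
      · subst h1
        rw [if_neg (by omega : ¬ (1 : ℤ) + 1 = 0)]
        simp
      · rw [if_neg (by omega : ¬ i - 1 = 0)]
        simp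

theorem SP_word (M : ℕ) (B : Multiset ℝ) (hB : ∀ b ∈ B, 0 ≤ b ∧ b ≤ M) :
    ∃ lo, SP lo (Multiset.card B) (hz (M + Multiset.card B + 1) (PF (B + bM M))) := by
  induction B using Multiset.induction_on with
  | empty => exact ⟨0, by simpa using SP_base M⟩
  | cons b B ih =>
    obtain ⟨lo, h⟩ := ih fun b' hb' => hB b' (Multiset.mem_cons_of_mem hb')
    have hb := hB b (Multiset.mem_cons_self b B)
    obtain ⟨lo', h'⟩ := h.step (a := b) (D := ((M + Multiset.card B + 1 : ℕ) : ℝ) + 1) hb.1 (by
      push_cast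
      linarith [hb.2])
    refine ⟨lo', ?_⟩
    rw [Multiset.cons_add, Multiset.card_cons]
    have e : M + (Multiset.card B + 1) + 1 = (M + Multiset.card B + 1) + 1 := by ring
    rw [e, hz_cons]
    push_cast at h' ⊢
    exact h'

theorem repl (M : ℕ) (B : Multiset ℝ) (hB : ∀ b ∈ B, 0 ≤ b ∧ b ≤ M) {a a' : ℝ} (ha : 0 ≤ a)
    (haa : a ≤ a') (ha' : a' ≤ M + 1) {i : ℤ} (hi : 0 ≤ i)
    (h : hz (M + Multiset.card B + 2) (PF (a ::ₘ (B + bM M))) (i + 1)
      ≤ hz (M + Multiset.card B + 2) (PF (a ::ₘ (B + bM M))) i) :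
    hz (M + Multiset.card B + 2) (PF (a' ::ₘ (B + bM M))) (i + 1)
      ≤ hz (M + Multiset.card B + 2) (PF (a' ::ₘ (B + bM M))) i := by
  obtain ⟨lo, hSP⟩ := SP_word M B hB
  rw [show M + Multiset.card B + 2 = (M + Multiset.card B + 1) + 1 by ring] at h ⊢
  rw [hz_cons] at h ⊢
  refine hSP.transfer ha haa ?_ hi h
  push_cast
  linarith

/-- Reflection. -/
theorem reflect (n : ℕ) (c : ℝ) (s : ℤ) (hs : (s : ℝ) = n - c) (B₀ : Multiset ℝ)
    (h0 : ∀ i, hz n (PF B₀) (s - i) = hz n (PF B₀) i) (B : Multiset ℝ) (i : ℤ) :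
    hz (n + Multiset.card B) (PF (B + B₀)) (s + Multiset.card B - i)
      = hz (n + Multiset.card B) (PF (B.map (fun b => c - b) + B₀)) i := by
  induction B using Multiset.induction_on generalizing i with
  | empty => simpa using h0 i
  | cons b B ih =>
    rw [Multiset.map_cons, Multiset.cons_add, Multiset.cons_add, Multiset.card_cons,
      ← add_assoc, hz_cons, hz_cons, stp, stp]
    have e1 : s + ((Multiset.card B + 1 : ℕ) : ℤ) - i - 1 = s + (Multiset.card B : ℤ) - i := by
      push_cast; ring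
    have e2 : s + ((Multiset.card B + 1 : ℕ) : ℤ) - i = s + (Multiset.card B : ℤ) - (i - 1) := by
      push_cast; ring
    rw [e1, e2, ih, ih]
    push_cast
    rw [hs]
    ring

theorem decomp (A : Multiset ℕ) (dc : ∀ s, 1 ≤ s → s + 1 ∈ A → s ∈ A) (M : ℕ)
    (hM : M = 0 ∨ M ∈ A) (hmax : ∀ a ∈ A, a ≤ M) :
    ∃ B : Multiset ℕ, A = B + (Multiset.range M).map (fun a => a + 1) ∧ ∀ b ∈ B, b ≤ M := by
  have h1 : (Multiset.range M).map (fun a => a + 1) ≤ A := by
    rw [Multiset.le_iff_subset]
    · intro x hx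
      rw [Multiset.mem_map] at hx
      obtain ⟨y, hy, rfl⟩ := hx
      rw [Multiset.mem_range] at hy
      rcases hM with hM | hM
      · omega
      · have key : ∀ j, j < M → M - j ∈ A := by
          intro j
          induction j with
          | zero => intro _; simpa using hM
          | succ j ih =>
            intro hj
            have h2 := ih (by omega)
            have h3 : M - j = (M - (j + 1)) + 1 := by omega
            rw [h3] at h2
            exact dc _ (by omega) h2
        have := key (M - (y + 1)) (by omega)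
        rwa [show M - (M - (y + 1)) = y + 1 by omega] at this
    · refine Multiset.Nodup.map ?_ (Multiset.nodup_range M)
      intro x y hxy
      simpa using hxy
  obtain ⟨B, hB⟩ := Multiset.le_iff_exists_add.mp h1
  refine ⟨B, by rw [hB, add_comm], fun b hb => hmax b ?_⟩
  rw [hB]
  exact Multiset.mem_add.mpr (Or.inr hb)

/-- Real copy of a multiset of naturals. -/
noncomputable def cm (A : Multiset ℕ) : Multiset ℝ := A.map (fun a : ℕ => (a : ℝ))

theorem cm_cons (a : ℕ) (A : Multiset ℕ) : cm (a ::ₘ A) = (a : ℝ) ::ₘ cm A := by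
  simp [cm]

/-- Replacement in a down-closed multiset with some further factors. -/
theorem repl' (A : Multiset ℕ) (C : Multiset ℝ) (dc : ∀ s, 1 ≤ s → s + 1 ∈ A → s ∈ A) (M : ℕ)
    (hM : M = 0 ∨ M ∈ A) (hmax : ∀ a ∈ A, a ≤ M) (hC : ∀ b ∈ C, 0 ≤ b ∧ b ≤ M) (n : ℕ)
    (hn : n = Multiset.card A + Multiset.card C + 2) {a a' : ℝ} (ha : 0 ≤ a)
    (haa : a ≤ a') (ha' : a' ≤ M + 1) {i : ℤ} (hi : 0 ≤ i)
    (h : hz n (PF (a ::ₘ (cm A + C))) (i + 1) ≤ hz n (PF (a ::ₘ (cm A + C))) i) :
    hz n (PF (a' ::ₘ (cm A + C))) (i + 1) ≤ hz n (PF (a' ::ₘ (cm A + C))) i := by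
  obtain ⟨B, hB, hBM⟩ := decomp A dc M hM hmax
  have e1 : cm A + C = (cm B + C) + bM M := by
    rw [hB, cm, Multiset.map_add, Multiset.map_map]
    have : Multiset.map ((fun a : ℕ => (a : ℝ)) ∘ fun a => a + 1) (Multiset.range M) = bM M := rfl
    rw [this, add_assoc, add_assoc, add_comm (bM M) C]
    rfl
  have e2 : n = M + Multiset.card (cm B + C) + 2 := by
    rw [hn, hB, Multiset.card_add, Multiset.card_add, Multiset.card_map, Multiset.card_range, cm,
      Multiset.card_map]
    ring
  rw [e1] at h ⊢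
  rw [e2] at h ⊢
  refine repl M (cm B + C) (fun b hb => ?_) ha haa ha' hi h
  rw [Multiset.mem_add] at hb
  rcases hb with hb | hb
  · rw [cm, Multiset.mem_map] at hb
    obtain ⟨b', hb', rfl⟩ := hb
    exact ⟨by positivity, by exact_mod_cast hBM b' hb'⟩
  · exact hC b hb

theorem sym_word (c k r : ℕ) (hc : 1 ≤ c) (hk : 2 ≤ k) (n : ℕ) (hn : n = (c + 1) * k + r)
    {i : ℤ} (hi : (n : ℤ) ≤ 2 * i + (c + 1)) :
    hz n (PF ((Multiset.replicate (r + 1) ((c : ℝ) / 2) + cm ((k - 1) • Multiset.range (c + 1)))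
      + bM (c - 1))) (i + 1) ≤
    hz n (PF ((Multiset.replicate (r + 1) ((c : ℝ) / 2) + cm ((k - 1) • Multiset.range (c + 1)))
      + bM (c - 1))) i := by
  obtain ⟨k', rfl⟩ : ∃ k', k = k' + 2 := ⟨k - 2, by omega⟩
  obtain ⟨c', rfl⟩ : ∃ c', c = c' + 1 := ⟨c - 1, by omega⟩
  simp only [Nat.add_sub_cancel]
  rw [show k' + 2 - 1 = k' + 1 by omega]
  set R := Multiset.replicate (r + 1) (((c' + 1 : ℕ) : ℝ) / 2) with hR
  set Q := cm ((k' + 1) • Multiset.range (c' + 1 + 1)) with hQ
  have hcardQ : Multiset.card Q = (k' + 1) * (c' + 2) := by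
    rw [hQ, cm, Multiset.card_map, Multiset.card_nsmul, Multiset.card_range]
  have hcardR : Multiset.card R = r + 1 := by simp [hR]
  have hcard : Multiset.card (R + Q) = r + 1 + (k' + 1) * (c' + 2) := by
    rw [Multiset.card_add, hcardQ, hcardR]
  -- symmetry
  have hsym : ∀ j, hz n (PF ((R + Q) + bM c')) ((Multiset.card (R + Q) : ℤ) - j)
      = hz n (PF ((R + Q) + bM c')) j := by
    intro j
    have h1 := reflect (c' + 1) ((c' + 1 : ℕ) : ℝ) 0 (by push_cast; ring) (bM c') (fun i => by
      rw [hz_bM, hz_bM]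
      by_cases h : i = 0
      · rw [if_pos h, if_pos (by omega)]
      · rw [if_neg h, if_neg (by omega)]) (R + Q) j
    have e1 : c' + 1 + Multiset.card (R + Q) = n := by
      rw [hcard, hn]; ring
    rw [e1, zero_add] at h1
    rw [h1]
    congr 2
    congr 1
    rw [Multiset.map_add]
    congr 1
    · rw [hR, Multiset.map_replicate]
      congr 1
      ring
    · rw [hQ, cm, Multiset.map_nsmul, Multiset.map_nsmul]
      congr 1
      rw [Multiset.map_map]
      -- reflect the range
      have : (Multiset.range (c' + 1 + 1)) = (Multiset.range (c' + 1 + 1)).map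
          (fun a => c' + 1 - a) := by
        have h2 : (Multiset.range (c' + 1 + 1)).map (fun a => c' + 1 - a)
            = Multiset.map (fun a => a) (Multiset.range (c' + 1 + 1)) := by
          rw [← Multiset.coe_range, Multiset.map_coe, Multiset.map_coe, Multiset.coe_eq_coe]
          have h3 : (List.range (c' + 1 + 1)).map (fun a => c' + 1 - a)
              = (List.range (c' + 1 + 1)).reverse := by
            apply List.ext_getElem
            · simp
            · intro m h1 h2
              simp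
          rw [h3]
          rw [List.map_id']
          exact List.reverse_perm (List.range (c' + 1 + 1))
        rw [h2, Multiset.map_id']
      conv_rhs => rw [this]
      rw [Multiset.map_map]
      refine Multiset.map_congr rfl fun a ha => ?_
      rw [Multiset.mem_range] at ha
      simp only [Function.comp_apply]
      rw [Nat.cast_sub (by omega)]
  -- positivity
  have hSP : ∃ lo, SP lo (r + 1 + (k' * (c' + 2) + (c' + 1)) : ℕ) (hz n (PF ((R + Q) + bM c'))) := by
    obtain ⟨lo, h⟩ := SP_word (c' + 1) (R + (cm (k' • Multiset.range (c' + 1 + 1))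
      + cm (Multiset.range (c' + 1)))) (fun b hb => by
        rw [Multiset.mem_add, Multiset.mem_add] at hb
        rcases hb with hb | hb | hb
        · rw [hR] at hb
          have := Multiset.eq_of_mem_replicate hb
          rw [this]
          constructor
          · positivity
          · have : (0 : ℝ) ≤ ((c' + 1 : ℕ) : ℝ) := by positivity
            linarith
        · rw [cm, Multiset.mem_map] at hb
          obtain ⟨b', hb', rfl⟩ := hb
          have := Multiset.mem_of_mem_nsmul hb'
          rw [Multiset.mem_range] at this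
          exact ⟨by positivity, by exact_mod_cast (by omega : b' ≤ c' + 1)⟩
        · rw [cm, Multiset.mem_map] at hb
          obtain ⟨b', hb', rfl⟩ := hb
          rw [Multiset.mem_range] at hb'
          exact ⟨by positivity, by exact_mod_cast (by omega : b' ≤ c' + 1)⟩)
    have e1 : (R + (cm (k' • Multiset.range (c' + 1 + 1)) + cm (Multiset.range (c' + 1))))
        + bM (c' + 1) = (R + Q) + bM c' := by
      rw [bM_succ, hQ, add_nsmul, one_nsmul]
      have e2 : cm (k' • Multiset.range (c' + 1 + 1) + Multiset.range (c' + 1 + 1))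
          = cm (k' • Multiset.range (c' + 1 + 1)) + (((c' + 1 : ℕ) : ℝ) ::ₘ cm (Multiset.range (c' + 1)))
          := by
        rw [cm, Multiset.map_add, Multiset.range_succ, Multiset.map_cons]
        rfl
      rw [e2]
      simp only [Multiset.add_cons, Multiset.cons_add, add_assoc]
    have e3 : Multiset.card (R + (cm (k' • Multiset.range (c' + 1 + 1))
        + cm (Multiset.range (c' + 1)))) = r + 1 + (k' * (c' + 2) + (c' + 1)) := by
      rw [Multiset.card_add, Multiset.card_add, hcardR, cm, cm, Multiset.card_map,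
        Multiset.card_map, Multiset.card_nsmul, Multiset.card_range, Multiset.card_range]
    rw [e1, e3] at h
    refine ⟨lo, ?_⟩
    have e4 : c' + 1 + (r + 1 + (k' * (c' + 2) + (c' + 1))) + 1 = n := by
      rw [hn]; ring
    rwa [e4] at h
  obtain ⟨lo, hSP⟩ := hSP
  refine hSP.desc_of_symm hsym ?_
  rw [hcard]
  have : (n : ℤ) = ((c' + 1 + 1) * (k' + 2) + r : ℕ) := by exact_mod_cast hn
  push_cast at this hi ⊢
  nlinarith

end Pool.Agent.H17.Hyper
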