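import Pool.Agent.H17.Hyper.DescB

/-!
# Descent of the h-transform of a product of blocks
-/

set_option autoImplicit false

namespace Pool.Agent.H17.Hyper

open Finset

/-- The conditions on the multiset of roots of a product of at most `k` blocks. -/
structure Blk (k : ℕ) (A : Multiset ℕ) : Prop where
  dc : ∀ s, 1 ≤ s → s + 1 ∈ A → s ∈ A
  cnt : ∀ s, A.count s ≤ k
  cnt0 : A.count 0 + 1 ≤ k

theorem Blk.desc (n k q : ℕ) (hk : 2 ≤ k) (hq : 2 ≤ q) (hqn : q * k ≤ n) {i : ℤ} (hi0 : 0 ≤ i)
    (hi : (n : ℤ) ≤ 2 * i + q) : ∀ (e : ℕ) (A : Multiset ℕ) (j : ℕ), Blk k A →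
    Multiset.card (A.filter (fun a => q ≤ a)) = e → Multiset.card A + j + 1 = n →
    q * k + j ≤ n →
    hz n (PF (cm A + Multiset.replicate j (((q - 1 : ℕ) : ℝ) / 2))) (i + 1)
      ≤ hz n (PF (cm A + Multiset.replicate j (((q - 1 : ℕ) : ℝ) / 2))) i := by
  obtain ⟨c, rfl⟩ : ∃ c, q = c + 1 := ⟨q - 1, by omega⟩
  simp only [Nat.add_sub_cancel]
  have hc : 1 ≤ c := by omega
  have hc2 : (0 : ℝ) ≤ (c : ℝ) / 2 := by positivity
  have hc1 : (1 : ℝ) ≤ (c : ℝ) := by exact_mod_cast hc
  intro e
  induction e with
  | zero =>
    intro A j hA hf hcard hj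
    -- all elements are at most `c`
    have hle : ∀ a ∈ A, a < c + 1 := by
      intro a ha
      by_contra h
      have : a ∈ A.filter (fun a => c + 1 ≤ a) := Multiset.mem_filter.mpr ⟨ha, by omega⟩
      rw [Multiset.card_eq_zero.mp hf] at this
      exact Multiset.notMem_zero _ this
    have hsum : ∑ v ∈ range (c + 1), A.count v = Multiset.card A :=
      Multiset.sum_count_eq_card fun a ha => Finset.mem_range.mpr (hle a ha)
    rw [Finset.sum_range_succ'] at hsum
    have hsum1 : ∀ v ∈ range c, A.count (v + 1) ≤ k := fun v _ => hA.cnt _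
    have hup := Finset.sum_le_card_nsmul (range c) (fun v => A.count (v + 1)) k hsum1
    rw [Finset.card_range, smul_eq_mul] at hup
    have h0 := hA.cnt0
    have hmul : (c + 1) * k = c * k + k := by ring
    have hfull : ∀ v ∈ range c, A.count (v + 1) = k := by
      have htot : ∑ v ∈ range c, A.count (v + 1) = ∑ v ∈ range c, k := by
        rw [Finset.sum_const, Finset.card_range, smul_eq_mul]
        omega
      exact (Finset.sum_eq_sum_iff_of_le hsum1).mp htot
    have hfull0 : A.count 0 = k - 1 := by
      have htot : ∑ v ∈ range c, A.count (v + 1) = c * k := by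
        rw [Finset.sum_congr rfl hfull, Finset.sum_const, Finset.card_range, smul_eq_mul]
      omega
    have hjn : n = (c + 1) * k + j := by
      have htot : ∑ v ∈ range c, A.count (v + 1) = c * k := by
        rw [Finset.sum_congr rfl hfull, Finset.sum_const, Finset.card_range, smul_eq_mul]
      omega
    -- the shape of `A`
    set A' := (k - 1) • Multiset.range (c + 1) + (Multiset.range (c - 1)).map (fun a => a + 1)
      with hA'
    have hshape : A = c ::ₘ A' := by
      ext v
      rw [Multiset.count_cons, hA', Multiset.count_add, Multiset.count_nsmul]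
      have hr : ∀ m w : ℕ, Multiset.count w (Multiset.range m) = if w < m then 1 else 0 := by
        intro m w
        rw [Multiset.count_eq_of_nodup (Multiset.nodup_range m)]
        simp only [Multiset.mem_range]
      rw [hr]
      rcases Nat.eq_zero_or_pos v with hv | hv
      · subst hv
        rw [hfull0, if_pos (by omega), if_neg (by omega), Multiset.count_eq_zero_of_notMem]
        · ring
        · rw [Multiset.mem_map]
          rintro ⟨x, -, hx⟩
          omega
      · obtain ⟨w, rfl⟩ : ∃ w, v = w + 1 := ⟨v - 1, by omega⟩
        have h1 : Multiset.count (w + 1) ((Multiset.range (c - 1)).map (fun a => a + 1))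
            = Multiset.count w (Multiset.range (c - 1)) :=
          Multiset.count_map_eq_count' (fun a => a + 1) _ (fun x y h => by simpa using h) w
        rw [h1, hr]
        by_cases hw : w < c
        · rw [hfull w (Finset.mem_range.mpr hw), if_pos (by omega)]
          by_cases h2 : w + 1 = c
          · rw [if_pos h2, if_neg (by omega)]
            omega
          · rw [if_neg h2, if_pos (by omega)]
            omega
        · rw [if_neg (by omega), if_neg (by omega), if_neg (by omega), Multiset.count_eq_zero_of_notMem]
          · ring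
          · intro h
            have := hle _ h
            omega
    have hcm : cm A' = cm ((k - 1) • Multiset.range (c + 1)) + bM (c - 1) := by
      rw [hA', cm, Multiset.map_add, Multiset.map_map]
      rfl
    have hcardA' : Multiset.card A' = (k - 1) * (c + 1) + (c - 1) := by
      rw [hA', Multiset.card_add, Multiset.card_nsmul, Multiset.card_map, Multiset.card_range,
        Multiset.card_range]
    rw [hshape, cm_cons, Multiset.cons_add]
    have hk1 : (k - 1) * (c + 1) + (c + 1) = (c + 1) * k := by
      obtain ⟨k', rfl⟩ : ∃ k', k = k' + 1 := ⟨k - 1, by omega⟩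
      rw [Nat.add_sub_cancel]
      ring
    have hmem : ∀ v, v < c + 1 → v ∈ A' := by
      intro v hv
      rw [hA', Multiset.mem_add]
      left
      rw [Multiset.mem_nsmul]
      exact ⟨by omega, Multiset.mem_range.mpr hv⟩
    refine repl' A' (Multiset.replicate j ((c : ℝ) / 2)) (fun s hs hs1 => hmem s ?_) c
      (Or.inr (hmem c (by omega))) (fun a ha => ?_) (fun b hb => ?_) n ?_ (a := (c : ℝ) / 2)
      hc2 (by linarith) (by linarith) hi0 ?_
    · have : s + 1 ∈ A := by rw [hshape]; exact Multiset.mem_cons_of_mem hs1
      have := hle _ this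
      omega
    · have : a ∈ A := by rw [hshape]; exact Multiset.mem_cons_of_mem ha
      have := hle _ this
      omega
    · rw [Multiset.eq_of_mem_replicate hb]
      exact ⟨hc2, by linarith⟩
    · rw [Multiset.card_replicate, hcardA']
      omega
    · have hsw := sym_word c k j hc hk n hjn (i := i) (by push_cast at hi ⊢; linarith)
      have e1 : ((c : ℝ) / 2) ::ₘ (cm A' + Multiset.replicate j ((c : ℝ) / 2))
          = (Multiset.replicate (j + 1) ((c : ℝ) / 2) + cm ((k - 1) • Multiset.range (c + 1)))
            + bM (c - 1) := by
        rw [hcm, Multiset.replicate_succ, Multiset.cons_add, Multiset.cons_add]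
        congr 1
        rw [add_comm, add_assoc]
      rw [e1]
      exact hsw
  | succ e ih =>
    intro A j hA hf hcard hj
    -- the largest element
    have hne : ∃ a ∈ A, c + 1 ≤ a := by
      have h1 : 0 < Multiset.card (A.filter (fun a => c + 1 ≤ a)) := by omega
      obtain ⟨a, ha⟩ := Multiset.card_pos_iff_exists_mem.mp h1
      rw [Multiset.mem_filter] at ha
      exact ⟨a, ha.1, ha.2⟩
    obtain ⟨M, hMA, hMmax⟩ : ∃ M ∈ A, ∀ a ∈ A, a ≤ M := by
      obtain ⟨a, ha, -⟩ := hne
      have hne' : A.toFinset.Nonempty := ⟨a, Multiset.mem_toFinset.mpr ha⟩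
      refine ⟨A.toFinset.max' hne', Multiset.mem_toFinset.mp (Finset.max'_mem _ hne'), fun b hb => ?_⟩
      exact Finset.le_max' _ _ (Multiset.mem_toFinset.mpr hb)
    have hMq : c + 1 ≤ M := by
      obtain ⟨a, ha, hac⟩ := hne
      exact hac.trans (hMmax a ha)
    obtain ⟨A', hA'⟩ := Multiset.exists_cons_of_mem hMA
    have hsub : ∀ a ∈ A', a ∈ A := fun a ha => by rw [hA']; exact Multiset.mem_cons_of_mem ha
    have hsub' : ∀ a ∈ A, a ≠ M → a ∈ A' := fun a ha haM => by
      rw [hA', Multiset.mem_cons] at ha
      exact ha.resolve_left haM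
    have hdcA' : ∀ s, 1 ≤ s → s + 1 ∈ A' → s ∈ A' := by
      intro s hs hs1
      have h1 := hMmax _ (hsub _ hs1)
      exact hsub' s (hA.dc s hs (hsub _ hs1)) (by omega)
    have hchain : ∀ s, 1 ≤ s → s < M → s ∈ A' := by
      intro s hs hsM
      have key : ∀ d, d < M → M - d ∈ A := by
        intro d
        induction d with
        | zero => intro _; simpa using hMA
        | succ d ihd =>
          intro hd
          have h2 := ihd (by omega)
          have h3 : M - d = (M - (d + 1)) + 1 := by omega
          rw [h3] at h2
          exact hA.dc _ (by omega) h2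
      have h4 := key (M - s) (by omega)
      rw [show M - (M - s) = s by omega] at h4
      exact hsub' s h4 (by omega)
    -- the bound for the rest
    obtain ⟨M', hM'1, hM'2, hM'3⟩ : ∃ M', (M' = 0 ∨ M' ∈ A') ∧ (∀ a ∈ A', a ≤ M') ∧ M ≤ M' + 1 := by
      by_cases h : M ∈ A'
      · exact ⟨M, Or.inr h, fun a ha => hMmax a (hsub a ha), by omega⟩
      · refine ⟨M - 1, Or.inr (hchain (M - 1) (by omega) (by omega)), fun a ha => ?_, by omega⟩
        have h1 := hMmax a (hsub a ha)
        have h2 : a ≠ M := fun h3 => h (h3 ▸ ha)
        omega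
    have hM'c : (c : ℝ) ≤ (M' : ℝ) := by exact_mod_cast (by omega : c ≤ M')
    have hM'M : (M : ℝ) ≤ (M' : ℝ) + 1 := by exact_mod_cast hM'3
    have hcM : ((c : ℝ) + 1) ≤ (M : ℝ) := by exact_mod_cast hMq
    have hCb : ∀ b ∈ Multiset.replicate j ((c : ℝ) / 2), 0 ≤ b ∧ b ≤ (M' : ℝ) := by
      intro b hb
      rw [Multiset.eq_of_mem_replicate hb]
      exact ⟨hc2, by linarith⟩
    have hcardA' : Multiset.card A = Multiset.card A' + 1 := by rw [hA', Multiset.card_cons]
    have hn : n = Multiset.card A' + Multiset.card (Multiset.replicate j ((c : ℝ) / 2)) + 2 := by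
      rw [Multiset.card_replicate]
      omega
    have hfA' : Multiset.card (A'.filter (fun a => c + 1 ≤ a)) = e := by
      rw [hA', Multiset.filter_cons_of_pos _ hMq, Multiset.card_cons] at hf
      exact Nat.succ_injective hf
    rw [hA', cm_cons, Multiset.cons_add]
    by_cases hmiss : ∃ v, v ≤ c ∧ A.count v + (if v = 0 then 1 else 0) < k
    · -- fill a gap
      obtain ⟨v, hvc, hvk⟩ := hmiss
      refine repl' A' _ hdcA' M' hM'1 hM'2 hCb n hn (a := (v : ℝ)) (by positivity)
        (by
          have : (v : ℝ) ≤ (c : ℝ) := by exact_mod_cast hvc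
          linarith) hM'M hi0 ?_
      have hcnt' : ∀ s, A'.count s ≤ A.count s := fun s => by
        rw [hA', Multiset.count_cons]
        omega
      have hB : Blk k (v ::ₘ A') := by
        refine ⟨fun s hs hs1 => ?_, fun s => ?_, ?_⟩
        · rw [Multiset.mem_cons] at hs1
          refine Multiset.mem_cons_of_mem ?_
          rcases hs1 with hs1 | hs1
          · exact hchain s hs (by omega)
          · exact hdcA' s hs hs1
        · rw [Multiset.count_cons]
          have h1 := hcnt' s
          have h2 := hA.cnt s
          split_ifs with h3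
          · subst h3
            have : A.count s + 1 ≤ k := by
              by_cases hs0 : s = 0
              · subst hs0; exact hA.cnt0
              · rw [if_neg hs0] at hvk
                omega
            omega
          · omega
        · rw [Multiset.count_cons]
          have h1 := hcnt' 0
          have h2 := hA.cnt0
          split_ifs with h3
          · subst h3
            rw [if_pos rfl] at hvk
            omega
          · omega
      have h5 := ih (v ::ₘ A') j hB (by
        rw [Multiset.filter_cons_of_neg _ (by omega : ¬ c + 1 ≤ v)]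
        exact hfA') (by rw [Multiset.card_cons]; omega) hj
      rwa [cm_cons, Multiset.cons_add] at h5
    · -- all gaps are filled
      push Not at hmiss
      refine repl' A' _ hdcA' M' hM'1 hM'2 hCb n hn (a := (c : ℝ) / 2) hc2 (by linarith) hM'M hi0 ?_
      have hcnt' : ∀ s, A'.count s ≤ A.count s := fun s => by
        rw [hA', Multiset.count_cons]
        omega
      have hB : Blk k A' :=
        ⟨hdcA', fun s => (hcnt' s).trans (hA.cnt s), (Nat.add_le_add_right (hcnt' 0) 1).trans hA.cnt0⟩
      -- counting
      have hcardge : (c + 1) * k + (e + 1) ≤ Multiset.card A + 1 := by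
        have h1 : Multiset.card A = Multiset.card (A.filter (fun a => c + 1 ≤ a))
            + Multiset.card (A.filter (fun a => ¬ c + 1 ≤ a)) := by
          rw [← Multiset.card_add, Multiset.filter_add_not]
        have h2 : ∑ v ∈ range (c + 1), (A.filter (fun a => ¬ c + 1 ≤ a)).count v
            = Multiset.card (A.filter (fun a => ¬ c + 1 ≤ a)) :=
          Multiset.sum_count_eq_card fun a ha => by
            rw [Multiset.mem_filter] at ha
            exact Finset.mem_range.mpr (by omega)
        have h3 : ∀ v ∈ range (c + 1), (A.filter (fun a => ¬ c + 1 ≤ a)).count v = A.count v := by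
          intro v hv
          rw [Finset.mem_range] at hv
          rw [Multiset.count_filter, if_pos (by omega)]
        rw [Finset.sum_congr rfl h3, Finset.sum_range_succ'] at h2
        have h4 : ∑ v ∈ range c, A.count (v + 1) ≥ ∑ v ∈ range c, k := by
          refine Finset.sum_le_sum fun v hv => ?_
          rw [Finset.mem_range] at hv
          have := hmiss (v + 1) (by omega)
          rw [if_neg (by omega)] at this
          omega
        rw [Finset.sum_const, Finset.card_range, smul_eq_mul] at h4
        have h5 := hmiss 0 (by omega)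
        rw [if_pos rfl] at h5
        have h6 : (c + 1) * k = c * k + k := by ring
        omega
      have h5 := ih A' (j + 1) hB hfA' (by omega) (by omega)
      have e1 : ((c : ℝ) / 2) ::ₘ (cm A' + Multiset.replicate j ((c : ℝ) / 2))
          = cm A' + Multiset.replicate (j + 1) ((c : ℝ) / 2) := by
        rw [Multiset.replicate_succ, Multiset.add_cons]
      rw [e1]
      exact h5

end Pool.Agent.H17.Hyper
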