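import Pool.Agent.H17.Hyper.DescC

/-!
# The descending part of the h*-vector of a hypersimplex
-/

set_option autoImplicit false

namespace Pool.Agent.H17.Hyper

open Finset

theorem Blk.mono {k k' : ℕ} {A : Multiset ℕ} (h : Blk k A) (hk : k ≤ k') : Blk k' A :=
  ⟨h.dc, fun s => (h.cnt s).trans hk, h.cnt0.trans hk⟩

theorem Blk.add_range {k : ℕ} {A : Multiset ℕ} (h : Blk k A) (b : ℕ) :
    Blk (k + 1) (A + Multiset.range b) := by
  have hr : ∀ w : ℕ, Multiset.count w (Multiset.range b) ≤ 1 := fun w =>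
    Multiset.nodup_iff_count_le_one.mp (Multiset.nodup_range b) w
  refine ⟨fun s hs hs1 => ?_, fun s => ?_, ?_⟩
  · rw [Multiset.mem_add] at hs1 ⊢
    rcases hs1 with hs1 | hs1
    · exact Or.inl (h.dc s hs hs1)
    · rw [Multiset.mem_range] at hs1
      exact Or.inr (Multiset.mem_range.mpr (by omega))
  · rw [Multiset.count_add]
    exact Nat.add_le_add (h.cnt s) (hr s)
  · rw [Multiset.count_add]
    have := h.cnt0
    have := hr 0
    omega

theorem Blk.first (m : ℕ) : Blk 1 ((Multiset.range m).map (fun a => a + 1)) := by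
  have hnd : ((Multiset.range m).map (fun a => a + 1)).Nodup :=
    Multiset.Nodup.map (fun x y hxy => by simpa using hxy) (Multiset.nodup_range m)
  refine ⟨fun s hs hs1 => ?_, fun s => Multiset.nodup_iff_count_le_one.mp hnd s, ?_⟩
  · rw [Multiset.mem_map] at hs1 ⊢
    obtain ⟨x, hx, hxs⟩ := hs1
    rw [Multiset.mem_range] at hx
    exact ⟨s - 1, Multiset.mem_range.mpr (by omega), by omega⟩
  · rw [Multiset.count_eq_zero_of_notMem]
    rw [Multiset.mem_map]
    rintro ⟨x, -, hx⟩
    omega

theorem PF_add (A B : Multiset ℝ) (t : ℕ) : PF (A + B) t = PF A t * PF B t := by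
  simp [PF]

theorem PF_range (b t : ℕ) : PF (cm (Multiset.range b)) t = (t.ascFactorial b : ℝ) := by
  induction b with
  | zero => simp [PF, cm]
  | succ b ih =>
    rw [Multiset.range_succ, cm_cons, PF_cons]
    simp only
    rw [ih, Nat.ascFactorial_succ]
    push_cast
    ring

theorem PF_bM (M t : ℕ) : PF (bM M) t = ((t + 1).ascFactorial M : ℝ) := by
  induction M with
  | zero => simp [PF, bM]
  | succ M ih =>
    rw [bM_succ, PF_cons]
    simp only
    rw [ih, Nat.ascFactorial_succ]
    push_cast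
    ring

/-- A product of at most `k` blocks of total size `n`. -/
def BW (n k : ℕ) (F : ℕ → ℝ) : Prop :=
  ∃ (C : ℝ) (A : Multiset ℕ), 0 < C ∧ Blk k A ∧ Multiset.card A + 1 = n ∧
    F = fun t => C * PF (cm A) t

theorem BW_first {n : ℕ} (hn : 1 ≤ n) : BW n 1 (fun t => ((t + 1).multichoose (n - 1) : ℝ)) := by
  have hf : (0 : ℝ) < (n - 1).factorial := by exact_mod_cast (n - 1).factorial_pos
  refine ⟨((n - 1).factorial : ℝ)⁻¹, _, inv_pos.mpr hf, Blk.first (n - 1), ?_, ?_⟩
  · simp
    omega
  · funext t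
    have e : cm ((Multiset.range (n - 1)).map (fun a => a + 1)) = bM (n - 1) := by
      rw [cm, Multiset.map_map]
      rfl
    rw [e, PF_bM, multichoose_mul_factorial]
    push_cast
    field_simp

theorem BW.block {m k : ℕ} {F : ℕ → ℝ} (h : BW m k F) (b : ℕ) :
    BW (m + b) (k + 1) (fun t => (t.multichoose b : ℝ) * F t) := by
  obtain ⟨C, A, hC, hA, hm, rfl⟩ := h
  have hf : (0 : ℝ) < b.factorial := by exact_mod_cast b.factorial_pos
  refine ⟨(b.factorial : ℝ)⁻¹ * C, A + Multiset.range b, by positivity, hA.add_range b, ?_, ?_⟩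
  · rw [Multiset.card_add, Multiset.card_range]
    omega
  · funext t
    have e : cm (A + Multiset.range b) = cm A + cm (Multiset.range b) := by
      rw [cm, Multiset.map_add]
      rfl
    rw [e, PF_add, PF_range, multichoose_mul_factorial]
    push_cast
    field_simp

theorem BW.mono {n k k' : ℕ} {F : ℕ → ℝ} (h : BW n k F) (hk : k ≤ k') : BW n k' F := by
  obtain ⟨C, A, hC, hA, hm, hF⟩ := h
  exact ⟨C, A, hC, hA.mono hk, hm, hF⟩

/-- Nonnegative combinations of products of at most `k` blocks of total size `n`. -/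
inductive CB (n k : ℕ) : (ℕ → ℝ) → Prop
  | zero : CB n k (fun _ => 0)
  | base (F : ℕ → ℝ) (h : BW n k F) : CB n k F
  | add (F G : ℕ → ℝ) (hF : CB n k F) (hG : CB n k G) : CB n k (fun t => F t + G t)

theorem CB.congr {n k : ℕ} {F G : ℕ → ℝ} (h : CB n k F) (hFG : ∀ t, F t = G t) : CB n k G := by
  have : F = G := funext hFG
  rwa [← this]

theorem CB.mono {n k k' : ℕ} (hk : k ≤ k') {F : ℕ → ℝ} (h : CB n k F) : CB n k' F := by
  induction h with
  | zero => exact CB.zero
  | base F h => exact CB.base F (h.mono hk)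
  | add F G _ _ h1 h2 => exact CB.add F G h1 h2

theorem CB.block {m k : ℕ} {F : ℕ → ℝ} (h : CB m k F) (b : ℕ) :
    CB (m + b) (k + 1) (fun t => (t.multichoose b : ℝ) * F t) := by
  induction h with
  | zero => exact CB.zero.congr fun t => by simp
  | base F h => exact CB.base _ (h.block b)
  | add F G _ _ h1 h2 => exact (CB.add _ _ h1 h2).congr fun t => by ring

theorem CB.sum {n k : ℕ} {ι : Type} (s : Finset ι) (F : ι → ℕ → ℝ) (h : ∀ i ∈ s, CB n k (F i)) :
    CB n k (fun t => ∑ i ∈ s, F i t) := by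
  classical
  induction s using Finset.induction_on with
  | empty => exact CB.zero.congr fun t => by simp
  | insert a s ha ih =>
    refine (CB.add _ _ (h a (Finset.mem_insert_self a s))
      (ih fun i hi => h i (Finset.mem_insert_of_mem hi))).congr fun t => ?_
    rw [Finset.sum_insert ha]

theorem Lf_CB : ∀ n k : ℕ, 1 ≤ k → k < n → CB n (min k (n - k)) (Lf n k) := by
  intro n
  induction n using Nat.strong_induction_on with
  | _ n ih =>
    intro k hk hkn
    have h1 : CB n (min k (n - k)) (fun t => ((t + 1).multichoose (n - 1) : ℝ)) :=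
      (CB.base _ (BW_first (by omega))).mono (by omega)
    have h2 : CB n (min k (n - k)) (fun t => ∑ b ∈ Ico 2 (n + 1), ∑ a ∈ Ico 1 b,
        if a ≤ k then (t.multichoose b : ℝ) * Lf (n - b) (k - a) t else 0) := by
      refine CB.sum _ (fun b t => ∑ a ∈ Ico 1 b,
        if a ≤ k then (t.multichoose b : ℝ) * Lf (n - b) (k - a) t else 0) fun b hb => ?_
      refine CB.sum _ (fun a t =>
        if a ≤ k then (t.multichoose b : ℝ) * Lf (n - b) (k - a) t else 0) fun a ha => ?_
      rw [Finset.mem_Ico] at hb ha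
      by_cases hc : a ≤ k ∧ 1 ≤ k - a ∧ k - a < n - b
      · have h3 := (ih (n - b) (by omega) (k - a) hc.2.1 hc.2.2).block b
        rw [Nat.sub_add_cancel (by omega)] at h3
        refine (h3.mono (by omega)).congr fun t => ?_
        rw [if_pos hc.1]
      · refine CB.zero.congr fun t => ?_
        split_ifs with hak
        · rw [Lf, if_neg (by omega), mul_zero]
        · rfl
    exact (CB.add _ _ h1 h2).congr fun t => (Lf_rec hk hkn t).symm

theorem hs_const_mul (n : ℕ) (C : ℝ) (F : ℕ → ℝ) (i : ℕ) :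
    hs n (fun t => C * F t) i = C * hs n F i := by
  unfold hs
  rw [Finset.mul_sum]
  exact Finset.sum_congr rfl fun j _ => by ring

theorem CB.desc {n k : ℕ} (hk : 2 ≤ k) (h2k : 2 * k ≤ n) {F : ℕ → ℝ} (h : CB n k F) (i : ℕ)
    (hi : n ≤ 2 * i + n / k) : hs n F (i + 1) ≤ hs n F i := by
  induction h with
  | zero => rw [hs_zero, hs_zero]
  | add F G _ _ h1 h2 =>
    rw [hs_add, hs_add]
    linarith
  | base F h =>
    obtain ⟨C, A, hC, hA, hm, rfl⟩ := h
    rw [hs_const_mul, hs_const_mul]
    refine mul_le_mul_of_nonneg_left ?_ hC.le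
    have hq : 2 ≤ n / k := by
      rw [Nat.le_div_iff_mul_le (by omega)]
      exact h2k
    have h1 := Blk.desc n k (n / k) hk hq (Nat.div_mul_le_self n k) (i := (i : ℤ)) (by positivity)
      (by exact_mod_cast hi) _ A 0 hA rfl (by omega)
      (by have := Nat.div_mul_le_self n k; omega)
    rw [Multiset.replicate_zero, add_zero] at h1
    have e : ((i : ℤ) + 1) = ((i + 1 : ℕ) : ℤ) := by push_cast; ring
    rwa [e, hz_nat, hz_nat] at h1

/-- The h*-vector descends from the index `(n - n / m) / 2` on, `m = min k (n - k)`. -/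
theorem h_desc (n k : ℕ) (hk : 0 < k) (hkn : k < n) (L : ℕ → ℕ)
    (hL : ∀ t : ℕ, L t = ((Finset.univ : Finset (Fin n → Fin (t + 1))).filter
      (fun x => ∑ i, (x i : ℕ) = k * t)).card) (h : ℕ → ℤ)
    (hh : ∀ i : ℕ, h i = ∑ j ∈ Finset.range (i + 1),
      (-1 : ℤ) ^ j * (n.choose j : ℤ) * (L (i - j) : ℤ)) (i : ℕ)
    (hi : n ≤ 2 * i + n / min k (n - k)) : h (i + 1) ≤ h i := by
  have key : hs n (Lf n k) (i + 1) ≤ hs n (Lf n k) i := by
    rcases Nat.lt_or_ge (min k (n - k)) 2 with hm | hm
    · have hm1 : min k (n - k) = 1 := by omega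
      refine ((CC.tail (by omega) (by omega) (Lf_mem n k hk hkn) i).2 ?_).2
      rw [hm1]
      simp
      exact mul_nonneg (mul_nonneg (by norm_num) (by
        have : (1 : ℝ) ≤ n := by exact_mod_cast (by omega : 1 ≤ n)
        linarith)) (by positivity)
    · exact (Lf_CB n k hk hkn).desc hm (by omega) i hi
  rw [← h_eq_hs hk hkn L hL h hh, ← h_eq_hs hk hkn L hL h hh] at key
  exact_mod_cast key

end Pool.Agent.H17.Hyper
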