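import Pool.Agent.H17.Hyper.DescD

/-!
# From the ascending inequalities to unimodality
-/

set_option autoImplicit false

namespace Pool.Agent.H17.Hyper

open Finset

/-- The ascending half, in the range where it is needed. -/
def Asc : Prop :=
  ∀ n k : ℕ, 2 ≤ k → 2 * k ≤ n →
    ∀ L : ℕ → ℕ,
      (∀ t : ℕ, L t = ((Finset.univ : Finset (Fin n → Fin (t + 1))).filter
          (fun x => ∑ i, (x i : ℕ) = k * t)).card) →
    ∀ h : ℕ → ℤ,
      (∀ i : ℕ, h i = ∑ j ∈ Finset.range (i + 1),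
          (-1 : ℤ) ^ j * (n.choose j : ℤ) * (L (i - j) : ℤ)) →
    ∀ i : ℕ, 2 * i + 3 + n / k ≤ n → h i ≤ h (i + 1)

/-- Complement symmetry of the number of lattice points. -/
theorem card_symm (n k t : ℕ) (hkn : k ≤ n) :
    ((Finset.univ : Finset (Fin n → Fin (t + 1))).filter
      (fun x => ∑ i, (x i : ℕ) = k * t)).card
    = ((Finset.univ : Finset (Fin n → Fin (t + 1))).filter
      (fun x => ∑ i, (x i : ℕ) = (n - k) * t)).card := by
  have key : ∀ x : Fin n → Fin (t + 1), ∑ i, ((Fin.rev (x i) : Fin (t + 1)) : ℕ)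
      + ∑ i, (x i : ℕ) = n * t := by
    intro x
    rw [← Finset.sum_add_distrib]
    have : ∀ i ∈ (Finset.univ : Finset (Fin n)), ((Fin.rev (x i) : Fin (t + 1)) : ℕ) + (x i : ℕ)
        = t := by
      intro i _
      rw [Fin.val_rev]
      have := (x i).isLt
      omega
    rw [Finset.sum_congr rfl this]
    simp
  have hnk : k * t + (n - k) * t = n * t := by
    rw [← add_mul]
    congr 1
    omega
  refine Finset.card_bij' (fun x _ => fun i => Fin.rev (x i)) (fun x _ => fun i => Fin.rev (x i))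
    ?_ ?_ ?_ ?_
  · intro x hx
    rw [Finset.mem_filter] at hx ⊢
    refine ⟨Finset.mem_univ _, ?_⟩
    have := key x
    rw [hx.2] at this
    show ∑ i, ((Fin.rev (x i) : Fin (t + 1)) : ℕ) = _
    omega
  · intro x hx
    rw [Finset.mem_filter] at hx ⊢
    refine ⟨Finset.mem_univ _, ?_⟩
    have := key x
    rw [hx.2] at this
    show ∑ i, ((Fin.rev (x i) : Fin (t + 1)) : ℕ) = _
    omega
  · intro x _
    funext i
    exact Fin.rev_rev _
  · intro x _
    funext i
    exact Fin.rev_rev _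

theorem unimodal_of (N : ℕ) (h : ℕ → ℤ) (i₁ : ℕ) (hi₁ : i₁ + 1 ≤ N)
    (hasc : ∀ i, i < i₁ → h i ≤ h (i + 1)) (hdesc : ∀ i, i₁ < i → h (i + 1) ≤ h i) :
    ∃ m : ℕ, m ≤ N ∧ (∀ i j : ℕ, i ≤ j → j ≤ m → h i ≤ h j) ∧
      (∀ i j : ℕ, m ≤ i → i ≤ j → j ≤ N → h j ≤ h i) := by
  have hup : ∀ m, (∀ i, i < m → h i ≤ h (i + 1)) → ∀ i j : ℕ, i ≤ j → j ≤ m → h i ≤ h j := by
    intro m hm i j hij
    induction j, hij using Nat.le_induction with
    | base => intro _; exact le_rfl
    | succ j _ ih =>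
      intro hj
      exact (ih (by omega)).trans (hm j (by omega))
  have hdown : ∀ m, (∀ i, m ≤ i → h (i + 1) ≤ h i) → ∀ i j : ℕ, m ≤ i → i ≤ j → h j ≤ h i := by
    intro m hm i j hi hij
    induction j, hij using Nat.le_induction with
    | base => exact le_rfl
    | succ j hij ih => exact (hm j (by omega)).trans ih
  rcases le_total (h i₁) (h (i₁ + 1)) with hc | hc
  · refine ⟨i₁ + 1, hi₁, hup (i₁ + 1) fun i hi => ?_, fun i j hi hij _ =>
      hdown (i₁ + 1) (fun i hi => hdesc i (by omega)) i j hi hij⟩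
    rcases Nat.lt_or_ge i i₁ with h1 | h1
    · exact hasc i h1
    · obtain rfl : i = i₁ := by omega
      exact hc
  · refine ⟨i₁, by omega, hup i₁ hasc, fun i j hi hij _ => hdown i₁ (fun i hi => ?_) i j hi hij⟩
    rcases eq_or_lt_of_le hi with h1 | h1
    · rw [← h1]
      exact hc
    · exact hdesc i h1

/-- Unimodality from the ascending half. -/
theorem unimodal_of_asc (hA : Asc) :
    ∀ n k : ℕ, 0 < k → k < n →
    ∀ L : ℕ → ℕ,
      (∀ t : ℕ, L t = ((Finset.univ : Finset (Fin n → Fin (t + 1))).filter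
          (fun x => ∑ i, (x i : ℕ) = k * t)).card) →
    ∀ h : ℕ → ℤ,
      (∀ i : ℕ, h i = ∑ j ∈ Finset.range (i + 1),
          (-1 : ℤ) ^ j * (n.choose j : ℤ) * (L (i - j) : ℤ)) →
    ∃ m : ℕ, m ≤ n - 1 ∧
      (∀ i j : ℕ, i ≤ j → j ≤ m → h i ≤ h j) ∧
      (∀ i j : ℕ, m ≤ i → i ≤ j → j ≤ n - 1 → h j ≤ h i) := by
  intro n k hk hkn L hL h hh
  have hdesc := h_desc n k hk hkn L hL h hh
  obtain ⟨m, hm⟩ : ∃ m, m = min k (n - k) := ⟨_, rfl⟩
  rw [← hm] at hdesc
  rcases Nat.lt_or_ge m 2 with h1 | h1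
  · -- everything descends
    have hm1 : m = 1 := by omega
    subst hm1
    have hd : ∀ i, h (i + 1) ≤ h i := fun i => hdesc i (by rw [Nat.div_one]; omega)
    refine unimodal_of (n - 1) h 0 (by omega) (fun i hi => by omega) fun i _ => hd i
  · have h2m : 2 * m ≤ n := by omega
    have hLm : ∀ t : ℕ, L t = ((Finset.univ : Finset (Fin n → Fin (t + 1))).filter
          (fun x => ∑ i, (x i : ℕ) = m * t)).card := by
      intro t
      rcases le_total k (n - k) with h2 | h2
      · rw [hm, min_eq_left h2]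
        exact hL t
      · rw [hm, min_eq_right h2, hL t]
        exact card_symm n k t hkn.le
    have hasc := hA n m h1 h2m L hLm h hh
    have hq1 : 2 ≤ n / m := by
      rw [Nat.le_div_iff_mul_le (by omega)]
      exact h2m
    have hq2 : n / m ≤ n / 2 := Nat.div_le_div_left h1 (by omega)
    refine unimodal_of (n - 1) h ((n - n / m - 1) / 2) (by omega) (fun i hi => hasc i (by omega))
      fun i hi => hdesc i (by omega)

end Pool.Agent.H17.Hyper
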