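import Pool.Agent.H17.Hyper.Recursion
import Pool.Agent.H17.Hyper.Cone

/-!
# The number of lattice points as a nonnegative combination of products of blocks
-/

set_option autoImplicit false

namespace Pool.Agent.H17.Hyper

open Polynomial Finset

/-- `∑ multichoose t b * c ^ b * z ^ b`, the inverse of `(1 - c z) ^ t`. -/
noncomputable def hser (c : ℤ[X]) (t : ℕ) : PowerSeries ℤ[X] :=
  PowerSeries.mk fun b => ((t.multichoose b : ℕ) : ℤ[X]) * c ^ b

theorem hser_zero (c : ℤ[X]) : hser c 0 = 1 := by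
  ext1 n
  rw [hser, PowerSeries.coeff_mk, PowerSeries.coeff_one]
  rcases n with _ | n
  · simp
  · rw [if_neg (by omega), Nat.multichoose_zero_succ]
    simp

theorem hser_succ (c : ℤ[X]) (t : ℕ) :
    (1 - PowerSeries.C c * PowerSeries.X) * hser c (t + 1) = hser c t := by
  ext1 n
  rw [sub_mul, one_mul, map_sub, mul_assoc, PowerSeries.coeff_C_mul, hser, hser,
    PowerSeries.coeff_mk, PowerSeries.coeff_mk]
  rcases n with _ | n
  · simp
  · rw [PowerSeries.coeff_succ_X_mul, PowerSeries.coeff_mk, Nat.multichoose_succ_succ, pow_succ]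
    push_cast
    ring

theorem hser_pow (c : ℤ[X]) (t : ℕ) :
    (1 - PowerSeries.C c * PowerSeries.X) ^ t * hser c t = 1 := by
  induction t with
  | zero => rw [pow_zero, one_mul, hser_zero]
  | succ t ih => rw [pow_succ, mul_assoc, hser_succ, ih]

theorem Az_eq : Az = 1 - PowerSeries.C (1 : ℤ[X]) * PowerSeries.X := by
  rw [Az, map_one, one_mul]

/-- The part of the generating function without the extreme terms. -/
noncomputable def Useries (t : ℕ) : PowerSeries ℤ[X] :=
  Pbar t - hser 1 1 - hser X 1 + 1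

theorem U_identity {t : ℕ} (ht : 0 < t) :
    (hser X t - PowerSeries.C X * hser 1 t) * Useries t
      = PowerSeries.C X * PowerSeries.X * (hser 1 (t + 1) - hser X (t + 1)) := by
  obtain ⟨s, rfl⟩ : ∃ s, t = s + 1 := ⟨t - 1, by omega⟩
  have hP := Pbar_identity ht
  rw [Nat.add_sub_cancel] at hP
  set A : PowerSeries ℤ[X] := Az with hA
  set B : PowerSeries ℤ[X] := Bz with hB
  set P := Pbar (s + 1)
  have a0 : A ^ (s + 1) * hser 1 (s + 1) = 1 := by rw [hA, Az_eq]; exact hser_pow 1 _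
  have b0 : B ^ (s + 1) * hser X (s + 1) = 1 := hser_pow X _
  have a1 : A * hser 1 (s + 1 + 1) = hser 1 (s + 1) := by rw [hA, Az_eq]; exact hser_succ 1 _
  have b1 : B * hser X (s + 1 + 1) = hser X (s + 1) := hser_succ X _
  have a2 : A * hser 1 1 = 1 := by
    have := hser_pow 1 1
    rw [pow_one, ← Az_eq] at this
    exact this
  have b2 : B * hser X 1 = 1 := by
    have := hser_pow X 1
    rw [pow_one] at this
    exact this
  have a3 : A ^ s * hser 1 (s + 1) = hser 1 1 := by
    calc A ^ s * hser 1 (s + 1) = (A * hser 1 1) * (A ^ s * hser 1 (s + 1)) := by rw [a2, one_mul]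
      _ = hser 1 1 * (A ^ (s + 1) * hser 1 (s + 1)) := by ring
      _ = hser 1 1 := by rw [a0, mul_one]
  have b3 : B ^ s * hser X (s + 1) = hser X 1 := by
    calc B ^ s * hser X (s + 1) = (B * hser X 1) * (B ^ s * hser X (s + 1)) := by rw [b2, one_mul]
      _ = hser X 1 * (B ^ (s + 1) * hser X (s + 1)) := by ring
      _ = hser X 1 := by rw [b0, mul_one]
  have a4 : hser 1 (s + 1 + 1) = hser 1 1 * hser 1 (s + 1) := by
    calc hser 1 (s + 1 + 1) = (A * hser 1 1) * hser 1 (s + 1 + 1) := by rw [a2, one_mul]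
      _ = hser 1 1 * (A * hser 1 (s + 1 + 1)) := by ring
      _ = _ := by rw [a1]
  have b4 : hser X (s + 1 + 1) = hser X 1 * hser X (s + 1) := by
    calc hser X (s + 1 + 1) = (B * hser X 1) * hser X (s + 1 + 1) := by rw [b2, one_mul]
      _ = hser X 1 * (B * hser X (s + 1 + 1)) := by ring
      _ = _ := by rw [b1]
  have hA' : A = 1 - PowerSeries.X := rfl
  have hB' : B = 1 - PowerSeries.C X * PowerSeries.X := rfl
  unfold Useries
  set a := hser 1 (s + 1)
  set b := hser X (s + 1)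
  set α := hser (1 : ℤ[X]) 1
  set β := hser (X : ℤ[X]) 1
  rw [a4, b4]
  -- (b - y a) P = α b - y β a
  have h1 : (b - PowerSeries.C X * a) * P = α * b - PowerSeries.C X * β * a := by
    have h2 : P * (A ^ (s + 1) - PowerSeries.C X * B ^ (s + 1)) * (a * b)
        = (A ^ s - PowerSeries.C X * B ^ s) * (a * b) := by rw [hP]
    linear_combination h2 - P * b * a0 + PowerSeries.C X * P * a * b0 + b * a3
      - PowerSeries.C X * a * b3
  have h5 : (1 - PowerSeries.X) * α = 1 := by rw [← hA']; exact a2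
  have h6 : (1 - PowerSeries.C X * PowerSeries.X) * β = 1 := by rw [← hB']; exact b2
  linear_combination h1 + PowerSeries.C X * a * h5 - b * h6

/-- `y + y ^ 2 + ... + y ^ (b - 1)`. -/
noncomputable def wpoly (b : ℕ) : ℤ[X] := ∑ a ∈ Ico 1 b, X ^ a

theorem wpoly_mul {b : ℕ} (hb : 1 ≤ b) : (1 - X) * wpoly b = (X : ℤ[X]) - X ^ b := by
  obtain ⟨c, rfl⟩ : ∃ c, b = c + 1 := ⟨b - 1, by omega⟩
  rw [wpoly, Finset.sum_Ico_eq_sum_range, Nat.add_sub_cancel]
  have h := geom_sum_mul_neg (X : ℤ[X]) c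
  have h2 : ∑ k ∈ range c, (X : ℤ[X]) ^ (1 + k) = X * ∑ k ∈ range c, X ^ k := by
    rw [Finset.mul_sum]
    exact Finset.sum_congr rfl fun k _ => by rw [add_comm, pow_succ']
  rw [h2, pow_succ]
  linear_combination X * h

theorem U_rec {t : ℕ} (ht : 0 < t) (n : ℕ) (hn : 1 ≤ n) :
    PowerSeries.coeff n (Useries t) = (((t + 1).multichoose (n - 1) : ℕ) : ℤ[X]) * wpoly n
      + ∑ b ∈ Ico 2 (n + 1), ((t.multichoose b : ℕ) : ℤ[X]) * wpoly b
        * PowerSeries.coeff (n - b) (Useries t) := by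
  have h := congrArg (PowerSeries.coeff n) (U_identity ht)
  rw [PowerSeries.coeff_mul, Finset.Nat.sum_antidiagonal_eq_sum_range_succ
    (fun i j => PowerSeries.coeff i (hser X t - PowerSeries.C X * hser 1 t)
      * PowerSeries.coeff j (Useries t)) n] at h
  have hco : ∀ i, PowerSeries.coeff i (hser X t - PowerSeries.C X * hser 1 t)
      = ((t.multichoose i : ℕ) : ℤ[X]) * (X ^ i - X) := by
    intro i
    rw [map_sub, PowerSeries.coeff_C_mul, hser, hser, PowerSeries.coeff_mk, PowerSeries.coeff_mk]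
    ring
  simp only [hco] at h
  obtain ⟨m, rfl⟩ : ∃ m, n = m + 1 := ⟨n - 1, by omega⟩
  have hR : PowerSeries.coeff (m + 1) (PowerSeries.C X * PowerSeries.X *
      (hser 1 (t + 1) - hser X (t + 1))) = (1 - X) * ((((t + 1).multichoose m : ℕ) : ℤ[X])
        * wpoly (m + 1)) := by
    rw [mul_assoc, PowerSeries.coeff_C_mul, PowerSeries.coeff_succ_X_mul, map_sub, hser, hser,
      PowerSeries.coeff_mk, PowerSeries.coeff_mk]
    have := wpoly_mul (show 1 ≤ m + 1 by omega)
    rw [pow_succ] at this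
    linear_combination -(((t + 1).multichoose m : ℕ) : ℤ[X]) * this
  rw [hR] at h
  rw [Finset.range_eq_Ico, Finset.sum_eq_sum_Ico_succ_bot (by omega),
    Finset.sum_eq_sum_Ico_succ_bot (by omega), Nat.succ_eq_add_one] at h
  simp only [Nat.multichoose_zero_right, pow_zero, Nat.sub_zero, zero_add, pow_one, sub_self,
    mul_zero, zero_mul, Nat.cast_one, one_mul] at h
  have hsum : ∑ k ∈ Ico (1 + 1) (m + 1 + 1), ((t.multichoose k : ℕ) : ℤ[X]) * (X ^ k - X)
      * PowerSeries.coeff (m + 1 - k) (Useries t)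
      = - ((1 - X) * ∑ b ∈ Ico 2 (m + 1 + 1), ((t.multichoose b : ℕ) : ℤ[X]) * wpoly b
        * PowerSeries.coeff (m + 1 - b) (Useries t)) := by
    rw [Finset.mul_sum, ← Finset.sum_neg_distrib]
    refine Finset.sum_congr rfl fun b hb => ?_
    rw [Finset.mem_Ico] at hb
    have := wpoly_mul (show 1 ≤ b by omega)
    linear_combination (((t.multichoose b : ℕ) : ℤ[X])
      * PowerSeries.coeff (m + 1 - b) (Useries t)) * this
  rw [hsum] at h
  have hX : (1 - X : ℤ[X]) ≠ 0 := by
    intro h0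
    have := congrArg (fun p => coeff p 1) h0
    simp [coeff_one] at this
  apply mul_left_cancel₀ hX
  rw [Nat.add_sub_cancel]
  linear_combination h

theorem U_zero (t : ℕ) (ht : 0 < t) : PowerSeries.coeff 0 (Useries t) = 0 := by
  rw [Useries, map_add, map_sub, map_sub, Pbar, hser, hser, PowerSeries.coeff_mk,
    PowerSeries.coeff_mk, PowerSeries.coeff_mk, PowerSeries.coeff_one]
  have : contract t (qpoly t ^ 0) = 1 := by
    rw [pow_zero]
    have := contract_X_pow_lt ht
    rw [pow_zero, if_pos rfl] at this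
    exact this
  rw [this]
  simp

theorem U_coeff {t n k : ℕ} (ht : 0 < t) (hk : 1 ≤ k) (hkn : k < n) :
    (PowerSeries.coeff n (Useries t)).coeff k = Lc t n k := by
  rw [Useries, map_add, map_sub, map_sub, Pbar, hser, hser, PowerSeries.coeff_mk,
    PowerSeries.coeff_mk, PowerSeries.coeff_mk, PowerSeries.coeff_one, if_neg (by omega),
    add_zero, coeff_sub, coeff_sub, coeff_contract ht.ne', Nat.multichoose_one]
  rw [one_pow, Nat.cast_one, one_mul, one_mul, coeff_one, if_neg (by omega), coeff_X_pow,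
    if_neg (by omega), sub_zero, sub_zero, Lc]

theorem wpoly_coeff (b k : ℕ) : (wpoly b).coeff k = if 1 ≤ k ∧ k < b then 1 else 0 := by
  rw [wpoly, finsetSum_coeff]
  simp only [coeff_X_pow]
  rw [Finset.sum_ite_eq]
  simp [Finset.mem_Ico]

theorem wpoly_mul_coeff (b k : ℕ) (u : ℤ[X]) :
    (wpoly b * u).coeff k = ∑ a ∈ Ico 1 b, if a ≤ k then u.coeff (k - a) else 0 := by
  rw [wpoly, Finset.sum_mul, finsetSum_coeff]
  exact Finset.sum_congr rfl fun a _ => coeff_X_pow_mul' _ _ _

theorem U_rec_coeff {t : ℕ} (ht : 0 < t) (n : ℕ) (hn : 1 ≤ n) (k : ℕ) :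
    (PowerSeries.coeff n (Useries t)).coeff k
      = (((t + 1).multichoose (n - 1) : ℕ) : ℤ) * (if 1 ≤ k ∧ k < n then 1 else 0)
      + ∑ b ∈ Ico 2 (n + 1), ∑ a ∈ Ico 1 b, if a ≤ k then ((t.multichoose b : ℕ) : ℤ)
        * (PowerSeries.coeff (n - b) (Useries t)).coeff (k - a) else 0 := by
  rw [U_rec ht n hn, coeff_add, finsetSum_coeff]
  congr 1
  · rw [← C_eq_natCast, coeff_C_mul, wpoly_coeff]
  · refine Finset.sum_congr rfl fun b _ => ?_
    rw [mul_assoc, ← C_eq_natCast, coeff_C_mul, wpoly_mul_coeff, Finset.mul_sum]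
    refine Finset.sum_congr rfl fun a _ => ?_
    split_ifs <;> simp

theorem U_coeff_zero {t : ℕ} (ht : 0 < t) : ∀ n k : ℕ, k = 0 ∨ n ≤ k →
    (PowerSeries.coeff n (Useries t)).coeff k = 0 := by
  intro n
  induction n using Nat.strong_induction_on with
  | _ n ih =>
    intro k hk
    rcases Nat.eq_zero_or_pos n with hn | hn
    · subst hn
      rw [U_zero t ht, coeff_zero]
    · rw [U_rec_coeff ht n hn, if_neg (by omega), mul_zero, zero_add]
      refine Finset.sum_eq_zero fun b hb => Finset.sum_eq_zero fun a ha => ?_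
      rw [Finset.mem_Ico] at hb ha
      split_ifs with hak
      · rw [ih (n - b) (by omega) (k - a) (by omega), mul_zero]
      · rfl

/-- The number of lattice points of the `t`-th dilate, extended by zero. -/
noncomputable def Lf (n k : ℕ) (t : ℕ) : ℝ := if 1 ≤ k ∧ k < n then (Lc t n k : ℝ) else 0

theorem Lf_eq {t : ℕ} (ht : 0 < t) (n k : ℕ) :
    Lf n k t = ((PowerSeries.coeff n (Useries t)).coeff k : ℝ) := by
  unfold Lf
  split_ifs with h
  · rw [U_coeff ht h.1 h.2]
  · rw [U_coeff_zero ht n k (by omega)]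
    simp

theorem Lf_rec {n k : ℕ} (hk : 1 ≤ k) (hkn : k < n) (t : ℕ) :
    Lf n k t = ((t + 1).multichoose (n - 1) : ℝ)
      + ∑ b ∈ Ico 2 (n + 1), ∑ a ∈ Ico 1 b, if a ≤ k then (t.multichoose b : ℝ)
        * Lf (n - b) (k - a) t else 0 := by
  rcases Nat.eq_zero_or_pos t with ht | ht
  · subst ht
    rw [Lf, if_pos ⟨hk, hkn⟩, Lc, mul_zero]
    have h1 : qpoly 0 = 1 := by simp [qpoly]
    rw [h1, one_pow, coeff_one_zero, zero_add, Nat.multichoose_one]
    rw [Finset.sum_eq_zero]
    · simp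
    · intro b hb
      refine Finset.sum_eq_zero fun a _ => ?_
      rw [Finset.mem_Ico] at hb
      obtain ⟨c, rfl⟩ : ∃ c, b = c + 1 := ⟨b - 1, by omega⟩
      rw [Nat.multichoose_zero_succ]
      simp
  · rw [Lf_eq ht, U_rec_coeff ht n (by omega), if_pos ⟨hk, hkn⟩, mul_one]
    push_cast
    congr 1
    refine Finset.sum_congr rfl fun b _ => Finset.sum_congr rfl fun a _ => ?_
    rw [Lf_eq ht]

theorem Lf_mem : ∀ n k : ℕ, 1 ≤ k → k < n → CC n (min k (n - k)) (Lf n k) := by
  intro n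
  induction n using Nat.strong_induction_on with
  | _ n ih =>
    intro k hk hkn
    have h1 : CC n (min k (n - k)) (fun t => ((t + 1).multichoose (n - 1) : ℝ)) :=
      CC.base _ 1 (TT_first (by omega)) (by omega)
    have h2 : CC n (min k (n - k)) (fun t => ∑ b ∈ Ico 2 (n + 1), ∑ a ∈ Ico 1 b,
        if a ≤ k then (t.multichoose b : ℝ) * Lf (n - b) (k - a) t else 0) := by
      refine CC.sum _ (fun b t => ∑ a ∈ Ico 1 b,
        if a ≤ k then (t.multichoose b : ℝ) * Lf (n - b) (k - a) t else 0) fun b hb => ?_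
      refine CC.sum _ (fun a t =>
        if a ≤ k then (t.multichoose b : ℝ) * Lf (n - b) (k - a) t else 0) fun a ha => ?_
      rw [Finset.mem_Ico] at hb ha
      by_cases hc : a ≤ k ∧ 1 ≤ k - a ∧ k - a < n - b
      · have h3 := (ih (n - b) (by omega) (k - a) hc.2.1 hc.2.2).block b
        rw [Nat.sub_add_cancel (by omega)] at h3
        refine (h3.mono (by omega)).congr fun t => ?_
        rw [if_pos hc.1]
      · refine CC.zero.congr fun t => ?_
        split_ifs with hak
        · rw [Lf, if_neg (by omega), mul_zero]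
        · rfl
    exact (CC.add _ _ h1 h2).congr fun t => (Lf_rec hk hkn t).symm

theorem Lc_eq_card (n k t : ℕ) : Lc t n k = (((Finset.univ : Finset (Fin n → Fin (t + 1))).filter
    (fun x => ∑ i, (x i : ℕ) = k * t)).card : ℤ) := by
  have h1 : qpoly t = ∑ a : Fin (t + 1), (X : ℤ[X]) ^ (a : ℕ) := by
    rw [qpoly, Finset.sum_range]
  rw [Lc, h1, Fintype.sum_pow, finsetSum_coeff, Finset.card_filter, Nat.cast_sum]
  refine Finset.sum_congr rfl fun x _ => ?_
  rw [Finset.prod_pow_eq_pow_sum, coeff_X_pow]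
  by_cases h : ∑ i, (x i : ℕ) = k * t
  · rw [if_pos h.symm, if_pos h]; simp
  · rw [if_neg (fun e => h e.symm), if_neg h]; simp

/-- The h-vector of the statement as the h-transform of `Lf`. -/
theorem h_eq_hs {n k : ℕ} (hk : 0 < k) (hkn : k < n) (L : ℕ → ℕ)
    (hL : ∀ t : ℕ, L t = ((Finset.univ : Finset (Fin n → Fin (t + 1))).filter
      (fun x => ∑ i, (x i : ℕ) = k * t)).card) (h : ℕ → ℤ)
    (hh : ∀ i : ℕ, h i = ∑ j ∈ Finset.range (i + 1),
      (-1 : ℤ) ^ j * (n.choose j : ℤ) * (L (i - j) : ℤ)) (i : ℕ) :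
    (h i : ℝ) = hs n (Lf n k) i := by
  rw [hh, hs]
  push_cast
  refine Finset.sum_congr rfl fun j _ => ?_
  have h1 : (L (i - j) : ℝ) = Lf n k (i - j) := by
    rw [Lf, if_pos ⟨hk, hkn⟩, Lc_eq_card, hL]
    simp
  rw [h1]

end Pool.Agent.H17.Hyper
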