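import Mathlib

/-!
# Polynomials with all roots in `[-1, 0]` and products of linear factors

`Good N d A F` says that `F t = ∑ j, E_j (t choose j)` for a polynomial `E` of degree `N` with all
its roots in `[-1, 0]`, divisible by `(1 + X) ^ d`, and with prescribed second coefficient.
-/

set_option autoImplicit false

namespace Pool.Agent.H17.Hyper

open Polynomial Finset

/-- All roots of `P` are real and lie in `[-1, 0]`. -/
def RR (P : ℝ[X]) : Prop := P.Splits ∧ ∀ r ∈ P.roots, -1 ≤ r ∧ r ≤ 0

theorem RR.derivative {P : ℝ[X]} (h : RR P) : RR (derivative P) := by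
  obtain ⟨h1, h2⟩ := h
  have hdeg := natDegree_derivative_le P
  constructor
  · rw [splits_iff_card_roots]
    have h3 := card_roots_le_derivative P
    rw [← h1.natDegree_eq_card_roots] at h3
    have h4 := card_roots' (Polynomial.derivative P)
    omega
  · intro r hr
    by_cases hP0 : Polynomial.derivative P = 0
    · rw [hP0] at hr
      simp at hr
    have hr' : (Polynomial.derivative P).eval r = 0 := (mem_roots'.mp hr).2
    by_cases hPr : P.eval r = 0
    · have hP : P ≠ 0 := by
        rintro rfl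
        simp at hP0
      exact h2 r ((mem_roots hP).mpr hPr)
    · have h5 := h1.eval_derivative_div_eval_of_ne_zero hPr
      rw [hr', zero_div] at h5
      have hne : P.roots ≠ 0 := by
        intro h0
        have : P.natDegree = 0 := by rw [h1.natDegree_eq_card_roots, h0]; simp
        rw [natDegree_eq_zero] at this
        obtain ⟨c, hc⟩ := this
        apply hP0
        rw [← hc, derivative_C]
      obtain ⟨x0, hx0⟩ := Multiset.exists_mem_of_ne_zero hne
      constructor
      · by_contra hlt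
        push Not at hlt
        have hneg : ∀ x ∈ P.roots, 1 / (r - x) < 0 := by
          intro x hx
          apply div_neg_of_pos_of_neg one_pos
          linarith [(h2 x hx).1]
        have := Multiset.sum_lt_sum_of_nonempty (s := P.roots) (f := fun z => 1 / (r - z))
          (g := fun _ => (0 : ℝ)) hne hneg
        simp only [Multiset.map_const', Multiset.sum_replicate, smul_zero] at this
        linarith
      · by_contra hlt
        push Not at hlt
        have hpos : ∀ x ∈ P.roots, 0 < 1 / (r - x) := by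
          intro x hx
          apply div_pos one_pos
          linarith [(h2 x hx).2]
        have := Multiset.sum_lt_sum_of_nonempty (s := P.roots) (f := fun _ => (0 : ℝ))
          (g := fun z => 1 / (r - z)) hne hpos
        simp only [Multiset.map_const', Multiset.sum_replicate, smul_zero] at this
        linarith

theorem RR.ne_zero_mul {P Q : ℝ[X]} (hP : RR P) (hQ : RR Q) (hP0 : P ≠ 0) (hQ0 : Q ≠ 0) :
    RR (P * Q) := by
  refine ⟨hP.1.mul hQ.1, fun r hr => ?_⟩
  rw [roots_mul (mul_ne_zero hP0 hQ0), Multiset.mem_add] at hr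
  rcases hr with h | h
  · exact hP.2 r h
  · exact hQ.2 r h

theorem RR.of_dvd {P Q : ℝ[X]} (hP : RR P) (hP0 : P ≠ 0) (h : Q ∣ P) : RR Q := by
  refine ⟨hP.1.of_dvd hP0 h, fun r hr => hP.2 r ?_⟩
  exact Multiset.mem_of_le (roots.le_of_dvd hP0 h) hr

theorem RR.X : RR (Polynomial.X : ℝ[X]) := by
  refine ⟨Splits.X, fun r hr => ?_⟩
  rw [roots_X, Multiset.mem_singleton] at hr
  subst hr
  norm_num

theorem RR.one_add_X : RR (1 + Polynomial.X : ℝ[X]) := by
  have e : (1 + Polynomial.X : ℝ[X]) = Polynomial.X - C (-1) := by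
    rw [C_neg, C_1]; ring
  rw [e]
  refine ⟨Splits.X_sub_C _, fun r hr => ?_⟩
  rw [roots_X_sub_C, Multiset.mem_singleton] at hr
  subst hr
  norm_num

theorem RR.one : RR (1 : ℝ[X]) := ⟨Splits.one, fun r hr => by simp at hr⟩

theorem one_add_X_ne : (1 + Polynomial.X : ℝ[X]) ≠ 0 := by
  intro h
  have := congrArg (fun p => coeff p 1) h
  simp [coeff_one] at this

theorem RR.pow {P : ℝ[X]} (hP : RR P) (hP0 : P ≠ 0) (n : ℕ) : RR (P ^ n) := by
  induction n with
  | zero => rw [pow_zero]; exact RR.one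
  | succ n ih => rw [pow_succ]; exact ih.ne_zero_mul hP (pow_ne_zero n hP0) hP0

/-- The effect on `E` of multiplying `F` by `t + a`. -/
noncomputable def Eplus (a : ℕ) (E : ℝ[X]) : ℝ[X] :=
  X * (1 + X) * derivative E + (X + (a : ℝ[X])) * E

theorem Eplus_coeff_zero (a : ℕ) (E : ℝ[X]) : (Eplus a E).coeff 0 = a * E.coeff 0 := by
  unfold Eplus
  rw [coeff_add, mul_coeff_zero, mul_coeff_zero, mul_coeff_zero]
  simp

theorem Eplus_coeff_succ (a : ℕ) (E : ℝ[X]) (j : ℕ) :
    (Eplus a E).coeff (j + 1) = ((j : ℝ) + 1 + a) * E.coeff (j + 1) + ((j : ℝ) + 1) * E.coeff j := by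
  unfold Eplus
  have e1 : X * (1 + X) * derivative E = derivative E * X + derivative E * X * X := by ring
  have e2 : (X + (a : ℝ[X])) * E = E * X + (a : ℝ[X]) * E := by ring
  have e3 : ((a : ℝ[X]) * E).coeff (j + 1) = a * E.coeff (j + 1) := by
    rw [← C_eq_natCast, coeff_C_mul]
  rw [coeff_add, e1, e2, coeff_add, coeff_add, e3, coeff_mul_X, coeff_mul_X, coeff_mul_X,
    coeff_derivative]
  rcases j with _ | j
  · rw [mul_coeff_zero, coeff_X_zero, mul_zero]
    push_cast
    ring
  · rw [coeff_mul_X, coeff_derivative]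
    push_cast
    ring

theorem Eplus_zero_eq (E : ℝ[X]) : Eplus 0 E = X * derivative ((1 + X) * E) := by
  unfold Eplus
  rw [derivative_mul, derivative_add, derivative_one, derivative_X]
  push_cast
  ring

theorem Eplus_succ_eq (a : ℕ) (E : ℝ[X]) (Q : ℝ[X])
    (hQ : Q = ((a : ℝ[X]) + 1) * E + X * derivative E) :
    Eplus (a + 1) ((1 + X) ^ a * E) = (1 + X) ^ (a + 1) * Q := by
  subst hQ
  unfold Eplus
  rw [derivative_mul, derivative_pow, derivative_add, derivative_one, derivative_X]
  rcases a with _ | a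
  · simp only [Nat.cast_zero, C_0, zero_mul, pow_zero, one_mul, zero_add, Nat.cast_one, pow_one]
    ring
  · rw [Nat.add_sub_cancel]
    push_cast
    rw [C_add, C_1, C_eq_natCast]
    ring

theorem derivative_X_pow_mul (a : ℕ) (E : ℝ[X]) :
    derivative (X ^ (a + 1) * E) = X ^ a * (((a : ℝ[X]) + 1) * E + X * derivative E) := by
  rw [derivative_mul, derivative_X_pow, Nat.add_sub_cancel, C_eq_natCast]
  push_cast
  ring

theorem dvd_derivative_of_pow_dvd {d : ℕ} {E : ℝ[X]} (h : (1 + X) ^ (d + 1) ∣ E) :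
    (1 + X) ^ d ∣ derivative E := by
  obtain ⟨q, rfl⟩ := h
  rw [derivative_mul, derivative_pow, Nat.add_sub_cancel]
  refine dvd_add ?_ ?_
  · refine Dvd.dvd.mul_right (Dvd.dvd.mul_right (Dvd.dvd.mul_left dvd_rfl _) _) _
  · rw [pow_succ]
    exact Dvd.dvd.mul_right (Dvd.dvd.mul_right dvd_rfl _) _

/-- `F` comes from a polynomial `E` of degree `N` with all roots in `[-1, 0]`. -/
def Good (N d : ℕ) (A : ℝ) (F : ℕ → ℝ) : Prop :=
  ∃ E : ℝ[X], RR E ∧ E.natDegree = N ∧ 0 < E.coeff N ∧ (1 + X) ^ d ∣ E ∧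
    (N : ℝ) * E.coeff (N - 1) = ((N : ℝ) * (N - 1) / 2 + A) * E.coeff N ∧
    ∀ t : ℕ, F t = ∑ j ∈ range (N + 1), E.coeff j * (t.choose j : ℝ)

theorem Good.step {N d : ℕ} {A : ℝ} {F : ℕ → ℝ} (h : Good N d A F) (a : ℕ) (ha : a ≤ d + 1) :
    Good (N + 1) (max d a) (A + a) (fun t => ((t : ℝ) + a) * F t) := by
  obtain ⟨E, hE, hN, hpos, hdvd, hsec, hF⟩ := h
  have hE0 : E ≠ 0 := by
    rintro rfl
    simp at hpos
  -- the top coefficients
  have htop : (Eplus a E).coeff (N + 1) = ((N : ℝ) + 1) * E.coeff N := by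
    rw [Eplus_coeff_succ, coeff_eq_zero_of_natDegree_lt (by omega : E.natDegree < N + 1)]
    ring
  have hdeg : (Eplus a E).natDegree = N + 1 := by
    apply le_antisymm
    · rw [natDegree_le_iff_coeff_eq_zero]
      intro m hm
      obtain ⟨m', rfl⟩ : ∃ m', m = m' + 1 := ⟨m - 1, by omega⟩
      rw [Eplus_coeff_succ, coeff_eq_zero_of_natDegree_lt (by omega : E.natDegree < m' + 1),
        coeff_eq_zero_of_natDegree_lt (by omega : E.natDegree < m')]
      ring
    · apply le_natDegree_of_ne_zero
      rw [htop]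
      positivity
  refine ⟨Eplus a E, ?_, hdeg, ?_, ?_, ?_, ?_⟩
  · -- roots
    rcases a with _ | a
    · rw [Eplus_zero_eq]
      have h1 : RR ((1 + X) * E) := RR.one_add_X.ne_zero_mul hE one_add_X_ne hE0
      have h2 := h1.derivative
      refine RR.X.ne_zero_mul h2 X_ne_zero ?_
      intro h3
      have h4 := Eplus_zero_eq E
      rw [h3, mul_zero] at h4
      rw [h4] at hdeg
      simp at hdeg
    · obtain ⟨E1, rfl⟩ : (1 + X) ^ a ∣ E := (pow_dvd_pow _ (by omega)).trans hdvd
      have hE1 : E1 ≠ 0 := right_ne_zero_of_mul hE0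
      set Q := ((a : ℝ[X]) + 1) * E1 + X * derivative E1 with hQ
      rw [Eplus_succ_eq a E1 Q hQ]
      have h1 : RR E1 := hE.of_dvd hE0 (dvd_mul_left _ _)
      have h2 : RR (X ^ (a + 1) * E1) :=
        (RR.X.pow X_ne_zero _).ne_zero_mul h1 (pow_ne_zero _ X_ne_zero) hE1
      have h3 := h2.derivative
      have hQ0 : Q ≠ 0 := by
        intro h4
        have h5 := Eplus_succ_eq a E1 Q hQ
        rw [h4, mul_zero] at h5
        rw [h5] at hdeg
        simp at hdeg
      have h6 : derivative (X ^ (a + 1) * E1) ≠ 0 := by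
        rw [derivative_X_pow_mul, ← hQ]
        exact mul_ne_zero (pow_ne_zero _ X_ne_zero) hQ0
      have h7 : RR Q := h3.of_dvd h6 (by rw [derivative_X_pow_mul, ← hQ]; exact dvd_mul_left _ _)
      exact (RR.one_add_X.pow one_add_X_ne _).ne_zero_mul h7 (pow_ne_zero _ one_add_X_ne) hQ0
  · rw [htop]
    positivity
  · -- divisibility
    rcases a with _ | a
    · rw [Eplus_zero_eq, max_eq_left (Nat.zero_le d)]
      refine Dvd.dvd.mul_left (dvd_derivative_of_pow_dvd ?_) _
      rw [pow_succ']
      exact mul_dvd_mul_left _ hdvd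
    · obtain ⟨E1, rfl⟩ : (1 + X) ^ a ∣ E := (pow_dvd_pow _ (by omega)).trans hdvd
      set Q := ((a : ℝ[X]) + 1) * E1 + X * derivative E1 with hQ
      rw [Eplus_succ_eq a E1 Q hQ]
      by_cases hda : d ≤ a + 1
      · rw [max_eq_right hda]
        exact dvd_mul_right _ _
      · push Not at hda
        rw [max_eq_left hda.le]
        obtain ⟨e, rfl⟩ : ∃ e, d = a + (e + 1) := ⟨d - a - 1, by omega⟩
        have h1 : (1 + X) ^ (e + 1) ∣ E1 := by
          rw [pow_add] at hdvd
          exact (mul_dvd_mul_iff_left (pow_ne_zero _ one_add_X_ne)).mp hdvd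
        have h2 : (1 + X) ^ e ∣ Q := by
          rw [hQ]
          refine dvd_add ?_ ?_
          · exact Dvd.dvd.mul_left ((pow_dvd_pow _ (by omega)).trans h1) _
          · exact Dvd.dvd.mul_left (dvd_derivative_of_pow_dvd h1) _
        rw [show a + (e + 1) = (a + 1) + e by omega, pow_add]
        exact mul_dvd_mul_left _ h2
  · -- second coefficient
    rw [htop, Nat.add_sub_cancel]
    rcases N with _ | N
    · rw [Eplus_coeff_zero]
      have h1 : A * E.coeff 0 = 0 := by
        have := hsec
        push_cast at this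
        linarith
      have h2 : A = 0 := by
        rcases mul_eq_zero.mp h1 with h | h
        · exact h
        · exact absurd h hpos.ne'
      rw [h2]
      push_cast
      ring
    · rw [Eplus_coeff_succ]
      rw [Nat.add_sub_cancel] at hsec
      push_cast at hsec ⊢
      linear_combination ((N : ℝ) + 1 + 1) * hsec
  · intro t
    simp only
    rw [hF, Finset.mul_sum]
    have key : ∀ j, ((t : ℝ) + a) * (E.coeff j * (t.choose j : ℝ))
        = ((j : ℝ) + a) * E.coeff j * (t.choose j : ℝ)
          + ((j : ℝ) + 1) * E.coeff j * (t.choose (j + 1) : ℝ) := by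
      intro j
      have h1 : ((t.choose (j + 1) : ℕ) : ℝ) * ((j : ℝ) + 1) = (t.choose j : ℝ) * ((t : ℝ) - j) := by
        by_cases hjt : j ≤ t
        · have := Nat.choose_succ_right_eq t j
          have h2 : ((t.choose (j + 1) * (j + 1) : ℕ) : ℝ) = ((t.choose j * (t - j) : ℕ) : ℝ) := by
            rw [this]
          push_cast [Nat.cast_sub hjt] at h2
          exact h2
        · rw [Nat.choose_eq_zero_of_lt (by omega : t < j),
            Nat.choose_eq_zero_of_lt (by omega : t < j + 1)]
          simp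
      linear_combination E.coeff j * (-h1)
    have e1 : ∑ j ∈ range (N + 1), ((t : ℝ) + a) * (E.coeff j * (t.choose j : ℝ))
        = ∑ j ∈ range (N + 1), ((j : ℝ) + a) * E.coeff j * (t.choose j : ℝ)
          + ∑ j ∈ range (N + 1), ((j : ℝ) + 1) * E.coeff j * (t.choose (j + 1) : ℝ) := by
      rw [← Finset.sum_add_distrib]
      exact Finset.sum_congr rfl fun j _ => key j
    have e2 : ∑ j ∈ range (N + 1), ((j : ℝ) + a) * E.coeff j * (t.choose j : ℝ)
        = ∑ j ∈ range N, ((j : ℝ) + 1 + a) * E.coeff (j + 1) * (t.choose (j + 1) : ℝ)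
          + a * E.coeff 0 * (t.choose 0 : ℝ) := by
      rw [Finset.sum_range_succ' (fun j => ((j : ℝ) + a) * E.coeff j * (t.choose j : ℝ)) N]
      push_cast
      ring
    have e3 : ∑ j ∈ range (N + 1 + 1), (Eplus a E).coeff j * (t.choose j : ℝ)
        = ∑ j ∈ range (N + 1), (((j : ℝ) + 1 + a) * E.coeff (j + 1) * (t.choose (j + 1) : ℝ)
            + ((j : ℝ) + 1) * E.coeff j * (t.choose (j + 1) : ℝ))
          + a * E.coeff 0 * (t.choose 0 : ℝ) := by
      rw [Finset.sum_range_succ' (fun j => (Eplus a E).coeff j * (t.choose j : ℝ)) (N + 1),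
        Eplus_coeff_zero]
      congr 1
      refine Finset.sum_congr rfl fun j _ => ?_
      rw [Eplus_coeff_succ]
      ring
    have e4 : ∑ j ∈ range (N + 1), ((j : ℝ) + 1 + a) * E.coeff (j + 1) * (t.choose (j + 1) : ℝ)
        = ∑ j ∈ range N, ((j : ℝ) + 1 + a) * E.coeff (j + 1) * (t.choose (j + 1) : ℝ) := by
      rw [Finset.sum_range_succ,
        coeff_eq_zero_of_natDegree_lt (by omega : E.natDegree < N + 1)]
      ring
    rw [e1, e2, e3, Finset.sum_add_distrib, e4]
    ring

end Pool.Agent.H17.Hyper
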