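import Mathlib

/-!
# A recursion for the number of lattice points of dilated hypersimplices

`Lc t n k` is the coefficient of `X ^ (k t)` in `(1 + X + ... + X ^ t) ^ n`.
-/

set_option autoImplicit false

namespace Pool.Agent.H17.Hyper

open Polynomial Finset

/-- `1 + X + ... + X ^ t`. -/
noncomputable def qpoly (t : ℕ) : ℤ[X] := ∑ j ∈ range (t + 1), X ^ j

/-- The coefficient of `X ^ (k t)` in `(1 + X + ... + X ^ t) ^ n`. -/
noncomputable def Lc (t n k : ℕ) : ℤ := ((qpoly t) ^ n).coeff (k * t)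

/-- Contraction, coefficient by coefficient. -/
noncomputable def kap (t : ℕ) (f : PowerSeries ℤ[X]) : PowerSeries ℤ[X] :=
  PowerSeries.mk fun n => contract t (PowerSeries.coeff n f)

theorem contract_sum {t : ℕ} (ht : t ≠ 0) {ι : Type} (s : Finset ι) (f : ι → ℤ[X]) :
    contract t (∑ i ∈ s, f i) = ∑ i ∈ s, contract t (f i) := by
  classical
  induction s using Finset.induction_on with
  | empty => ext n; simp [coeff_contract ht]
  | insert a s ha ih => rw [Finset.sum_insert ha, Finset.sum_insert ha, contract_add ht, ih]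

theorem kap_mul {t : ℕ} (ht : t ≠ 0) (f g : PowerSeries ℤ[X]) :
    kap t (f * PowerSeries.map (expand ℤ t : ℤ[X] →+* ℤ[X]) g) = kap t f * g := by
  ext1 n
  rw [kap, PowerSeries.coeff_mk, PowerSeries.coeff_mul, PowerSeries.coeff_mul, contract_sum ht]
  refine Finset.sum_congr rfl fun p _ => ?_
  rw [PowerSeries.coeff_map, kap, PowerSeries.coeff_mk]
  exact contract_mul_expand ht _ _

theorem kap_sum {t : ℕ} (ht : t ≠ 0) {ι : Type} (s : Finset ι) (f : ι → PowerSeries ℤ[X]) :
    kap t (∑ i ∈ s, f i) = ∑ i ∈ s, kap t (f i) := by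
  ext1 n
  rw [kap, PowerSeries.coeff_mk, map_sum, map_sum, contract_sum ht]
  refine Finset.sum_congr rfl fun p _ => ?_
  rw [kap, PowerSeries.coeff_mk]

theorem kap_C {t : ℕ} (f : ℤ[X]) : kap t (PowerSeries.C f) = PowerSeries.C (contract t f) := by
  ext1 n
  rw [kap, PowerSeries.coeff_mk, PowerSeries.coeff_C, PowerSeries.coeff_C]
  split_ifs with h
  · rfl
  · simp [contract]

theorem contract_X_pow_lt {t e : ℕ} (he : e < t) :
    contract t (X ^ e : ℤ[X]) = if e = 0 then 1 else 0 := by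
  ext n
  rw [coeff_contract (by omega), coeff_X_pow]
  rcases n with _ | n
  · by_cases h : e = 0
    · subst h; simp
    · rw [if_neg (by omega : ¬ 0 * t = e), if_neg h, coeff_zero]
  · have h1 : ¬ (n + 1) * t = e := by
      intro h
      have : t ≤ (n + 1) * t := Nat.le_mul_of_pos_left t (by omega)
      omega
    rw [if_neg h1]
    split_ifs with h
    · rw [coeff_one, if_neg (by omega)]
    · rw [coeff_zero]

theorem contract_X_pow_self {t : ℕ} (ht : 0 < t) : contract t (X ^ t : ℤ[X]) = X := by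
  ext n
  rw [coeff_contract (by omega), coeff_X_pow, coeff_X]
  by_cases h : n = 1
  · subst h; simp
  · rw [if_neg, if_neg (by omega)]
    intro h2
    apply h
    have : n * t = 1 * t := by omega
    exact Nat.eq_of_mul_eq_mul_right ht this

/-- `A = 1 - z`. -/
noncomputable def Az : PowerSeries ℤ[X] := 1 - PowerSeries.X
/-- `B = 1 - y z`. -/
noncomputable def Bz : PowerSeries ℤ[X] := 1 - PowerSeries.C (X : ℤ[X]) * PowerSeries.X

/-- The generating function of the contracted powers. -/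
noncomputable def Pbar (t : ℕ) : PowerSeries ℤ[X] :=
  PowerSeries.mk fun n => contract t ((qpoly t) ^ n)

theorem map_Az (t : ℕ) : PowerSeries.map (expand ℤ t : ℤ[X] →+* ℤ[X]) Az = Az := by
  simp [Az]

theorem map_Bz (t : ℕ) : PowerSeries.map (expand ℤ t : ℤ[X] →+* ℤ[X]) Bz
    = 1 - PowerSeries.C ((X : ℤ[X]) ^ t) * PowerSeries.X := by
  simp [Bz]

theorem qpoly_mul (t : ℕ) : (1 - X) * qpoly t = (1 : ℤ[X]) - X ^ (t + 1) := by
  rw [qpoly, mul_comm]
  have := geom_sum_mul_neg (X : ℤ[X]) (t + 1)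
  exact this

theorem qseries (t : ℕ) : (1 - PowerSeries.C (qpoly t) * PowerSeries.X) *
    (PowerSeries.mk fun n => (qpoly t) ^ n) = 1 := by
  ext1 n
  rw [sub_mul, one_mul, map_sub, PowerSeries.coeff_mk, mul_assoc, PowerSeries.coeff_C_mul]
  rcases n with _ | n
  · simp
  · rw [mul_comm PowerSeries.X, PowerSeries.coeff_succ_mul_X, PowerSeries.coeff_mk,
      PowerSeries.coeff_one, if_neg (by omega), pow_succ']
    ring

theorem base_identity (t : ℕ) : (Az - PowerSeries.C (X : ℤ[X]) *
    PowerSeries.map (expand ℤ t : ℤ[X] →+* ℤ[X]) Bz) * (PowerSeries.mk fun n => (qpoly t) ^ n)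
    = PowerSeries.C (1 - X) := by
  have h : (Az - PowerSeries.C (X : ℤ[X]) * PowerSeries.map (expand ℤ t : ℤ[X] →+* ℤ[X]) Bz)
      = PowerSeries.C (1 - X) * (1 - PowerSeries.C (qpoly t) * PowerSeries.X) := by
    rw [map_Bz, Az, mul_sub, mul_sub, ← mul_assoc, ← mul_assoc, ← map_mul, ← map_mul, qpoly_mul,
      map_sub, map_sub, pow_succ']
    simp only [map_one, map_mul, map_pow]
    ring
  rw [h, mul_assoc, qseries, mul_one]

theorem Pbar_identity {t : ℕ} (ht : 0 < t) :
    Pbar t * (Az ^ t - PowerSeries.C X * Bz ^ t)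
      = Az ^ (t - 1) - PowerSeries.C X * Bz ^ (t - 1) := by
  set B' := PowerSeries.map (expand ℤ t : ℤ[X] →+* ℤ[X]) Bz with hB'
  set Q : PowerSeries ℤ[X] := PowerSeries.mk fun n => (qpoly t) ^ n with hQ
  have h1 := base_identity t
  rw [← hB', ← hQ] at h1
  have h2 := (Commute.all Az (PowerSeries.C (X : ℤ[X]) * B')).geom_sum₂_mul t
  have h3 : Q * (Az ^ t - (PowerSeries.C (X : ℤ[X]) * B') ^ t)
      = ∑ i ∈ range t, (PowerSeries.C ((1 - X) * X ^ (t - 1 - i)) *
        (Az ^ i * B' ^ (t - 1 - i))) := by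
    rw [← h2, mul_comm Q, mul_assoc, h1, Finset.sum_mul]
    refine Finset.sum_congr rfl fun i _ => ?_
    rw [mul_pow, map_mul, map_pow]
    ring
  have h4 : Az ^ t - (PowerSeries.C (X : ℤ[X]) * B') ^ t
      = PowerSeries.map (expand ℤ t : ℤ[X] →+* ℤ[X]) (Az ^ t - PowerSeries.C X * Bz ^ t) := by
    rw [map_sub, map_pow, map_Az, map_mul, map_pow, ← hB', mul_pow, ← map_pow]
    simp
  have h5 : ∀ i, Az ^ i * B' ^ (t - 1 - i)
      = PowerSeries.map (expand ℤ t : ℤ[X] →+* ℤ[X]) (Az ^ i * Bz ^ (t - 1 - i)) := by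
    intro i
    rw [map_mul, map_pow, map_pow, map_Az, ← hB']
  have h6 := congrArg (kap t) h3
  rw [h4, kap_mul ht.ne', kap_sum ht.ne'] at h6
  have h7 : kap t Q = Pbar t := by
    ext1 n
    rw [kap, Pbar, hQ, PowerSeries.coeff_mk, PowerSeries.coeff_mk, PowerSeries.coeff_mk]
  rw [h7] at h6
  rw [h6]
  have h8 : ∀ i ∈ range t, kap t (PowerSeries.C ((1 - X) * X ^ (t - 1 - i)) *
        (Az ^ i * B' ^ (t - 1 - i))) = (if i = t - 1 then Az ^ i * Bz ^ (t - 1 - i) else 0)
        - (if i = 0 then PowerSeries.C X * (Az ^ i * Bz ^ (t - 1 - i)) else 0) := by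
    intro i hi
    rw [Finset.mem_range] at hi
    rw [h5, kap_mul ht.ne', kap_C]
    have e : ((1 - X) * X ^ (t - 1 - i) : ℤ[X]) = X ^ (t - 1 - i) + (-1) * X ^ (t - i) := by
      rw [show t - i = (t - 1 - i) + 1 by omega, pow_succ]
      ring
    have e2 : contract t ((-1) * X ^ (t - i) : ℤ[X]) = - (contract t (X ^ (t - i))) := by
      ext n
      rw [coeff_neg, coeff_contract ht.ne', coeff_contract ht.ne', neg_one_mul, coeff_neg]
    rw [e, contract_add ht.ne', e2, contract_X_pow_lt (by omega : t - 1 - i < t)]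
    by_cases h0 : i = 0
    · subst h0
      rw [if_pos rfl, Nat.sub_zero, Nat.sub_zero, contract_X_pow_self ht]
      by_cases h1 : t - 1 = 0
      · rw [if_pos h1, if_pos (by omega)]
        simp only [map_add, map_one, map_neg]
        ring
      · rw [if_neg h1, if_neg (by omega)]
        simp only [map_add, map_zero, map_neg]
        ring
    · rw [if_neg h0, contract_X_pow_lt (by omega : t - i < t), if_neg (by omega : ¬ t - i = 0)]
      by_cases h1 : i = t - 1
      · rw [if_pos h1, if_pos (by omega)]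
        simp
      · rw [if_neg h1, if_neg (by omega)]
        simp
  rw [Finset.sum_congr rfl h8, Finset.sum_sub_distrib]
  rw [Finset.sum_ite_eq' (range t) (t - 1), Finset.sum_ite_eq' (range t) 0]
  rw [if_pos (Finset.mem_range.mpr (by omega)), if_pos (Finset.mem_range.mpr ht)]
  simp

end Pool.Agent.H17.Hyper
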