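import Pool.Agent.H17.Hyper.Darroch
import Pool.Agent.H17.Hyper.RealRoot

/-!
# The h-transform of a `Good` function
-/

set_option autoImplicit false

namespace Pool.Agent.H17.Hyper

open Finset

/-- The `i`-th coefficient of `(1 - x) ^ n * ∑ F t x ^ t`. -/
noncomputable def hs (n : ℕ) (F : ℕ → ℝ) (i : ℕ) : ℝ :=
  ∑ j ∈ range (i + 1), (-1 : ℝ) ^ j * (n.choose j : ℝ) * F (i - j)

theorem coeff_one_sub_X_pow (n b : ℕ) :
    PowerSeries.coeff b ((1 - PowerSeries.X : PowerSeries ℝ) ^ n) = (-1 : ℝ) ^ b * (n.choose b : ℝ) := by
  induction n generalizing b with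
  | zero =>
    rw [pow_zero, PowerSeries.coeff_one]
    rcases b with _ | b
    · simp
    · simp
  | succ n ih =>
    rw [pow_succ, mul_sub, mul_one, map_sub]
    rcases b with _ | b
    · rw [ih]; simp
    · rw [PowerSeries.coeff_succ_mul_X, ih, ih, Nat.choose_succ_succ]
      push_cast
      ring

theorem hs_eq_coeff (n : ℕ) (F : ℕ → ℝ) (i : ℕ) :
    hs n F i = PowerSeries.coeff i (PowerSeries.mk F * (1 - PowerSeries.X) ^ n) := by
  rw [PowerSeries.coeff_mul, hs, ← Finset.Nat.sum_antidiagonal_eq_sum_range_succ
    (fun a b => (-1 : ℝ) ^ a * (n.choose a : ℝ) * F b) i, Finset.Nat.sum_antidiagonal_swap.symm]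
  refine Finset.sum_congr rfl fun p _ => ?_
  rw [PowerSeries.coeff_mk, coeff_one_sub_X_pow]
  simp [mul_comm]

/-- The geometric series. -/
noncomputable def gser : PowerSeries ℝ := PowerSeries.mk fun _ => 1

theorem gser_mul : (1 - PowerSeries.X) * gser = 1 := by
  ext1 n
  rw [sub_mul, one_mul, map_sub, gser, PowerSeries.coeff_mk]
  rcases n with _ | n
  · simp
  · rw [PowerSeries.coeff_succ_X_mul, PowerSeries.coeff_mk, PowerSeries.coeff_one,
      if_neg (by omega)]
    ring

theorem mk_choose (j : ℕ) : (PowerSeries.mk fun t => (t.choose j : ℝ))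
    = gser * (PowerSeries.X * gser) ^ j := by
  induction j with
  | zero =>
    rw [pow_zero, mul_one]
    ext1 n
    simp [gser]
  | succ j ih =>
    have h1 : (1 - PowerSeries.X) * (PowerSeries.mk fun t => (t.choose (j + 1) : ℝ))
        = PowerSeries.X * (PowerSeries.mk fun t => (t.choose j : ℝ)) := by
      ext1 n
      rw [sub_mul, one_mul, map_sub]
      rcases n with _ | n
      · simp
      · rw [PowerSeries.coeff_succ_X_mul, PowerSeries.coeff_succ_X_mul, PowerSeries.coeff_mk,
          PowerSeries.coeff_mk, PowerSeries.coeff_mk, Nat.choose_succ_succ]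
        push_cast
        ring
    have h2 : gser * ((1 - PowerSeries.X) * (PowerSeries.mk fun t => (t.choose (j + 1) : ℝ)))
        = gser * (PowerSeries.X * (PowerSeries.mk fun t => (t.choose j : ℝ))) := by rw [h1]
    rw [← mul_assoc, mul_comm gser, gser_mul, one_mul, ih] at h2
    rw [h2, pow_succ]
    ring

theorem Good.transform {N d : ℕ} {A : ℝ} {F : ℕ → ℝ} (h : Good N d A F) :
    ∃ (c : ℝ) (p : Fin N → ℝ), 0 < c ∧ (∀ j, 0 ≤ p j) ∧ (∀ j, p j ≤ 1) ∧
      (N : ℝ) * ∑ j, p j = (N : ℝ) * (N + 1) / 2 - A ∧
      ∀ i, hs (N + 1) F i = c * (bern p univ).coeff i := by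
  obtain ⟨E, hE, hN, hpos, -, hsec, hF⟩ := h
  obtain ⟨l, hl⟩ : ∃ l : List ℝ, (l : Multiset ℝ) = E.roots := ⟨_, Multiset.coe_toList _⟩
  have hcard : l.length = N := by
    rw [← Multiset.coe_card, hl, ← hE.1.natDegree_eq_card_roots, hN]
  subst hcard
  have hmem : ∀ i : Fin l.length, l[i] ∈ E.roots := by
    intro i
    rw [← hl, Multiset.mem_coe]
    exact List.getElem_mem _
  refine ⟨E.coeff l.length, fun i => 1 + l[i], hpos, fun i => ?_, fun i => ?_, ?_, ?_⟩
  · linarith [(hE.2 _ (hmem i)).1]
  · linarith [(hE.2 _ (hmem i)).2]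
  · -- the mean
    have h1 : ∑ i : Fin l.length, (1 + l[i]) = l.length + E.roots.sum := by
      rw [Finset.sum_add_distrib, Finset.sum_const, Finset.card_univ, Fintype.card_fin,
        nsmul_eq_mul, mul_one]
      congr 1
      rw [← hl, Multiset.sum_coe, ← List.sum_ofFn]
      congr 1
      exact List.ofFn_getElem
    rw [h1]
    rcases Nat.eq_zero_or_pos l.length with h0 | h0
    · rw [h0] at hsec ⊢
      have : A * E.coeff 0 = 0 := by
        push_cast at hsec
        linarith
      rw [h0] at hpos
      have hA : A = 0 := by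
        rcases mul_eq_zero.mp this with h | h
        · exact h
        · exact absurd h hpos.ne'
      rw [hA]
      push_cast
      ring
    · have h3 := hE.1.nextCoeff_eq_neg_sum_roots_mul_leadingCoeff
      rw [Polynomial.nextCoeff_of_natDegree_pos (by omega), hN, Polynomial.leadingCoeff, hN] at h3
      rw [h3] at hsec
      have h4 : (l.length : ℝ) * E.roots.sum + ((l.length : ℝ) * (l.length - 1) / 2 + A) = 0 := by
        have : ((l.length : ℝ) * E.roots.sum + ((l.length : ℝ) * (l.length - 1) / 2 + A))
            * E.coeff l.length = 0 := by linear_combination -hsec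
        rcases mul_eq_zero.mp this with h | h
        · exact h
        · exact absurd h hpos.ne'
      linear_combination h4
  · intro i
    rw [hs_eq_coeff]
    have h1 : PowerSeries.mk F = gser * Polynomial.aeval (PowerSeries.X * gser) E := by
      rw [Polynomial.aeval_eq_sum_range, Finset.mul_sum, hN]
      ext1 t
      rw [PowerSeries.coeff_mk, hF, map_sum]
      refine Finset.sum_congr rfl fun j _ => ?_
      rw [mul_smul_comm, ← mk_choose, PowerSeries.coeff_smul, PowerSeries.coeff_mk, smul_eq_mul]
    have h2 : Polynomial.aeval (PowerSeries.X * gser) E = (algebraMap ℝ (PowerSeries ℝ))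
        (E.coeff l.length) * (l.map fun r => (PowerSeries.X * gser
          - algebraMap ℝ (PowerSeries ℝ) r)).prod := by
      conv_lhs => rw [hE.1.eq_prod_roots]
      rw [map_mul, Polynomial.aeval_C, Polynomial.leadingCoeff, hN]
      congr 1
      rw [← hl, Multiset.map_coe, Multiset.prod_coe, map_list_prod, List.map_map]
      congr 1
      refine List.map_congr_left fun r _ => ?_
      simp
    have h4 : ∀ l' : List ℝ, (l'.map fun r => (PowerSeries.X * gser
          - algebraMap ℝ (PowerSeries ℝ) r)).prod * (1 - PowerSeries.X : PowerSeries ℝ) ^ l'.length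
          = ((l'.map fun r => (Polynomial.C (-r) + Polynomial.C (1 + r) * Polynomial.X)).prod :
            Polynomial ℝ) := by
      intro l'
      induction l' with
      | nil => simp
      | cons r l' ih =>
        rw [List.map_cons, List.prod_cons, List.length_cons, pow_succ, List.map_cons,
          List.prod_cons, Polynomial.coe_mul, ← ih]
        have h5 : (PowerSeries.X * gser - algebraMap ℝ (PowerSeries ℝ) r) * (1 - PowerSeries.X)
            = ((Polynomial.C (-r) + Polynomial.C (1 + r) * Polynomial.X : Polynomial ℝ) :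
              PowerSeries ℝ) := by
          rw [Polynomial.coe_add, Polynomial.coe_mul, Polynomial.coe_C, Polynomial.coe_C,
            Polynomial.coe_X, ← PowerSeries.C_eq_algebraMap]
          have := gser_mul
          rw [map_neg, map_add, map_one]
          linear_combination PowerSeries.X * this
        rw [← h5]
        ring
    have h6 : PowerSeries.mk F * (1 - PowerSeries.X) ^ (l.length + 1)
        = ((Polynomial.C (E.coeff l.length) * (l.map fun r => (Polynomial.C (-r)
          + Polynomial.C (1 + r) * Polynomial.X)).prod : Polynomial ℝ) : PowerSeries ℝ) := by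
      rw [Polynomial.coe_mul, ← h4 l, h1, h2, Polynomial.coe_C, ← PowerSeries.C_eq_algebraMap]
      have := gser_mul
      rw [pow_succ]
      linear_combination (PowerSeries.C (E.coeff l.length) * (l.map fun r => (PowerSeries.X * gser
          - algebraMap ℝ (PowerSeries ℝ) r)).prod * (1 - PowerSeries.X) ^ l.length) * this
    rw [h6, Polynomial.coeff_coe, Polynomial.coeff_C_mul]
    congr 2
    unfold bern
    rw [← List.prod_ofFn]
    congr 1
    apply List.ext_getElem
    · simp
    · intro j h1 h2
      simp only [List.getElem_map, List.getElem_ofFn]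
      congr 2
      simp

end Pool.Agent.H17.Hyper
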